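import Mathlib

/-!
# Positive knot diagrams as permutations

A diagram of a knot on the sphere in which every crossing is positive is recorded by its finite set
`C` of crossings and a permutation `e` of `C × Bool`. The pair `(c, true)` is the passage of the
knot over the crossing `c`, the pair `(c, false)` is the passage under `c`, and `e z` is the passage
which follows the passage `z` when one runs through the knot in the direction of its orientation.
The arc of the diagram from the passage `z` to the passage `e z` is called the arc `z`.

At a positive crossing `c`, drawn with both strands going up, the over strand goes from the lower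
left to the upper right and the under strand from the lower right to the upper left.
-/

namespace Pool.Agent.Helper71.TG

open Equiv

variable {C : Type}

/-- The other passage at the same crossing. -/
def sw : Perm (C × Bool) where
  toFun z := (z.1, !z.2)
  invFun z := (z.1, !z.2)
  left_inv z := by simp
  right_inv z := by simp

/-- The number of classes of the equivalence relation generated by `r`. -/
noncomputable def classes {α : Type} (r : α → α → Prop) : ℕ := Nat.card (Quot r)

/-- The smoothing of all crossings which respects the orientation (for positive diagrams the
all-`A` smoothing; its circles are the Seifert circles): an arc arriving at a crossing is joined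
with the arc which leaves the crossing on the other strand. -/
def ARel (e : Perm (C × Bool)) (x y : C × Bool) : Prop := y = sw (e x)

/-- The other smoothing (the all-`B` smoothing): at each crossing the two arcs leaving it are joined
and the two arcs arriving at it are joined. -/
def BRel (e : Perm (C × Bool)) (x y : C × Bool) : Prop := y = sw x ∨ sw (e x) = e y

/-- The number of circles of the all-`A` state. -/
noncomputable def sA (e : Perm (C × Bool)) : ℕ := classes (ARel e)

/-- The number of circles of the all-`B` state. -/
noncomputable def sB (e : Perm (C × Bool)) : ℕ := classes (BRel e)

/-- The pair `(x, true)` is the left side of the arc `x` and `(x, false)` its right side. In each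
of the four corners of a crossing `c` the sides of two arcs meet: front (between the two arcs
leaving `c`), left, back (between the two arcs arriving at `c`), right. -/
inductive Corner (e : Perm (C × Bool)) : (C × Bool) × Bool → (C × Bool) × Bool → Prop
  | front (c : C) : Corner e ((c, true), true) ((c, false), false)
  | left (c : C) : Corner e (e.symm (c, true), true) ((c, false), true)
  | back (c : C) : Corner e (e.symm (c, true), false) (e.symm (c, false), true)
  | right (c : C) : Corner e (e.symm (c, false), false) ((c, true), false)

/-- The diagram has one component. -/
def IsKnot (e : Perm (C × Bool)) : Prop := ∀ x y, e.SameCycle x y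

/-- The surface obtained by glueing a disc to every face boundary is the sphere: Euler's formula
`V - E + F = 2` with `V = #C`, `E = 2 * #C` and `F` the number of faces. -/
def Planar (e : Perm (C × Bool)) : Prop := classes (Corner e) = Nat.card C + 2

/-- The Turaev genus of the diagram. -/
noncomputable def turaevGenus (e : Perm (C × Bool)) : ℚ :=
  ((Nat.card C : ℚ) + 2 - sA e - sB e) / 2

/-- The genus of the surface which Seifert's algorithm produces from the diagram, for a positive
diagram of a knot `K` the genus of `K`. -/
noncomputable def seifertGenus (e : Perm (C × Bool)) : ℚ :=
  ((Nat.card C : ℚ) + 1 - sA e) / 2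

/-- The diagram has a face with one corner (a kink). -/
def HasKink (e : Perm (C × Bool)) : Prop := ∃ c x, e (c, x) = (c, !x)

/-- The face to the right (`x = true`) or to the left (`x = false`) of the crossing `c` is a bigon
whose second corner is also a left or right corner; its two sides are oppositely oriented. -/
def BigonAt (e : Perm (C × Bool)) (c : C) (x : Bool) : Prop :=
  ∃ c', e (c, x) = (c', !x) ∧ e (c', x) = (c, !x)

/-- The number of crossings at which exactly one of the left and the right face is such a bigon:
the end crossings of the antiparallel twist regions with at least two crossings, two for each of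
them. -/
noncomputable def twistEnds (e : Perm (C × Bool)) : ℕ :=
  Nat.card {c : C // Xor (BigonAt e c true) (BigonAt e c false)}

/-- `true` for even numbers. -/
def ev (i : ℕ) : Bool := decide (i % 2 = 0)

/-- A place where a strand can be slid under an antiparallel twist region with the `2 * n + 1`
crossings `d 0, ..., d (2 * n)`: the two strands leaving the region cross over a third strand, in
the crossings `a` and `b`. -/
structure Place (e : Perm (C × Bool)) (n : ℕ) (d : ℕ → C) (a b : C) : Prop where
  inj : ∀ i ≤ 2 * n, ∀ j ≤ 2 * n, d i = d j → i = j
  ne_a : ∀ i ≤ 2 * n, d i ≠ a
  ne_b : ∀ i ≤ 2 * n, d i ≠ b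
  ab : a ≠ b
  fwd : ∀ i < 2 * n, e (d i, ev i) = (d (i + 1), ev (i + 1))
  bwd : ∀ i < 2 * n, e (d (i + 1), !ev (i + 1)) = (d i, !ev i)
  exit₁ : e (d (2 * n), true) = (a, true)
  exit₂ : e (d 0, false) = (b, true)
  third : e (a, false) = (b, false)

/-- The renaming of the passages when the third strand is slid to the other side of the region. The
passages `d 0, ..., d (2 * n), a` of the first strand become `a, d 0, ..., d (2 * n)`, the passages
`d (2 * n), ..., d 0, b` of the second strand become `b, d (2 * n), ..., d 0`, and the passages
`a, b` of the third strand become `b, a`. -/
structure Renames (n : ℕ) (d : ℕ → C) (a b : C) (σ : Perm (C × Bool)) : Prop where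
  first_zero : σ (d 0, true) = (a, true)
  first_succ : ∀ i < 2 * n, σ (d (i + 1), ev (i + 1)) = (d i, ev i)
  first_last : σ (a, true) = (d (2 * n), true)
  second_zero : σ (d (2 * n), false) = (b, true)
  second_succ : ∀ i < 2 * n, σ (d i, !ev i) = (d (i + 1), !ev (i + 1))
  second_last : σ (b, true) = (d 0, false)
  third_zero : σ (a, false) = (b, false)
  third_last : σ (b, false) = (a, false)
  other : ∀ z : C × Bool, z.1 ≠ a → z.1 ≠ b → (∀ i ≤ 2 * n, z.1 ≠ d i) → σ z = z

/-- The diagram `e'` arises from `e` by sliding a strand under an antiparallel twist region with an
odd number of crossings. For `n = 0` this is a Reidemeister move of type three. -/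
def SlideUnder (e e' : Perm (C × Bool)) : Prop :=
  ∃ n d a b σ, Place e n d a b ∧ Renames n d a b σ ∧ e' = σ * e * σ⁻¹

/-- The diagram seen from the other side of the sphere: over and under are exchanged, all crossings
stay positive. -/
def mir (e : Perm (C × Bool)) : Perm (C × Bool) := sw * e * sw

/-- `SlideUnder` up to the symmetries: a strand is slid under or over an antiparallel twist region
with an odd number of crossings, the orientation of the knot being arbitrary (`e⁻¹` is the diagram
with the opposite orientation). -/
def Slide (e e' : Perm (C × Bool)) : Prop :=
  SlideUnder e e' ∨ SlideUnder e⁻¹ e'⁻¹ ∨ SlideUnder (mir e) (mir e') ∨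
    SlideUnder (mir e)⁻¹ (mir e')⁻¹

end Pool.Agent.Helper71.TG
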