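import Pool.Agent.Helper71.TG.Defs

/-!
# Functions on the faces

If the all-`B` state has one circle, a function on the faces with equal values to the left and to
the right of every crossing is constant or takes different values on the two sides of every arc.
Counting dimensions over the field with two elements gives such functions.
-/

namespace Pool.Agent.Helper71.TG

open Equiv

variable {C : Type}

@[simp] theorem sw_apply (z : C × Bool) : sw z = (z.1, !z.2) := rfl

@[simp] theorem sw_sw (z : C × Bool) : sw (sw z) = z := by simp

/-- The faces of the diagram. -/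
abbrev Faces (e : Perm (C × Bool)) : Type := Quot (Corner e)

/-- The face on the left of an arc. -/
def fL (e : Perm (C × Bool)) (x : C × Bool) : Faces e := Quot.mk _ (x, true)

/-- The face on the right of an arc. -/
def fR (e : Perm (C × Bool)) (x : C × Bool) : Faces e := Quot.mk _ (x, false)

variable (e : Perm (C × Bool))

/-- The face in front of a crossing. -/
def fN (c : C) : Faces e := fL e (c, true)
/-- The face on the left of a crossing. -/
def fW (c : C) : Faces e := fL e (c, false)
/-- The face behind a crossing. -/
def fS (c : C) : Faces e := fR e (e.symm (c, true))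
/-- The face on the right of a crossing. -/
def fE (c : C) : Faces e := fR e (c, true)

theorem fL_true (c : C) : fL e (c, true) = fN e c := rfl
theorem fR_false (c : C) : fR e (c, false) = fN e c := (Quot.sound (Corner.front c)).symm
theorem fL_false (c : C) : fL e (c, false) = fW e c := rfl
theorem fR_true (c : C) : fR e (c, true) = fE e c := rfl
theorem fL_symm_true (c : C) : fL e (e.symm (c, true)) = fW e c := Quot.sound (Corner.left c)
theorem fR_symm_true (c : C) : fR e (e.symm (c, true)) = fS e c := rfl
theorem fL_symm_false (c : C) : fL e (e.symm (c, false)) = fS e c :=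
  (Quot.sound (Corner.back c)).symm
theorem fR_symm_false (c : C) : fR e (e.symm (c, false)) = fE e c :=
  Quot.sound (Corner.right c)

variable {e}

/-- A function on the arcs which is compatible with the all-`B` smoothing is constant if the state
has one circle. -/
theorem const_of_sB (h : sB e = 1) {α : Type*} (f : C × Bool → α)
    (h1 : ∀ c, f (c, true) = f (c, false))
    (h2 : ∀ c, f (e.symm (c, true)) = f (e.symm (c, false))) (x y : C × Bool) : f x = f y := by
  have hs : Subsingleton (Quot (BRel e)) := (Nat.card_eq_one_iff_unique.1 h).1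
  have h3 : ∀ a b, BRel e a b → f a = f b := by
    rintro a b (rfl | h)
    · rcases a with ⟨c, _ | _⟩
      · exact (h1 c).symm
      · exact h1 c
    · have ha : a = e.symm (e a) := by simp
      have hb : b = e.symm (e b) := by simp
      rw [ha, hb, ← h]
      rcases e a with ⟨c, _ | _⟩
      · exact (h2 c).symm
      · exact h2 c
  exact congrArg (Quot.lift f h3) (Subsingleton.elim (Quot.mk _ x) (Quot.mk _ y))

/-- If some function compatible with the all-`B` smoothing is not constant, the state has at least
two circles. -/
theorem two_le_sB [Finite C] {f : C × Bool → Prop}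
    (h1 : ∀ c, f (c, true) ↔ f (c, false))
    (h2 : ∀ c, f (e.symm (c, true)) ↔ f (e.symm (c, false))) {x y : C × Bool} (hx : f x)
    (hy : ¬ f y) : 2 ≤ sB e := by
  have h0 : sB e ≠ 1 := fun h => hy ((const_of_sB h f (fun c => propext (h1 c))
    (fun c => propext (h2 c)) x y) ▸ hx)
  have : sB e ≠ 0 := by
    have : Nonempty (Quot (BRel e)) := ⟨Quot.mk _ x⟩
    exact Nat.card_pos.ne'
  omega

/-- A function with the same values on both sides of each arc and of each crossing is constant. -/
theorem const_of_sides (hk : IsKnot e) {α : Type*} (f : Faces e → α)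
    (h1 : ∀ x, f (fL e x) = f (fR e x)) (φ ψ : Faces e) : f φ = f ψ := by
  have h3 : ∀ c, f (fW e c) = f (fN e c) := by
    intro c
    have := h1 (c, false)
    rwa [fL_false, fR_false] at this
  have h4 : ∀ x, f (fL e x) = f (fL e (e x)) := by
    intro x
    obtain ⟨z, rfl⟩ := e.symm.surjective x
    rw [Equiv.apply_symm_apply]
    rcases z with ⟨c, _ | _⟩
    · rw [h1, fR_symm_false, fL_false, h3, ← fR_true, ← h1, fL_true]
    · rw [fL_symm_true, fL_true, h3]
  have h5 : ∀ x y, f (fL e x) = f (fL e y) := by
    intro x y
    obtain ⟨k, hk⟩ := hk x y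
    rw [← hk]
    have h6 : ∀ n : ℕ, ∀ x, f (fL e x) = f (fL e ((e ^ n) x)) := by
      intro n
      induction n with
      | zero => intro x; simp
      | succ n ih =>
        intro x
        rw [pow_succ, Equiv.Perm.mul_apply, ← ih (e x)]
        exact h4 x
    obtain ⟨n, rfl | rfl⟩ := k.eq_nat_or_neg
    · simpa using h6 n x
    · have := h6 n ((e ^ (-(n : ℤ))) x)
      rw [this]
      congr 2
      simp
  have h6 : ∀ φ, ∃ x, f φ = f (fL e x) := by
    intro φ
    obtain ⟨⟨x, b⟩, rfl⟩ := Quot.exists_rep φ
    rcases b with _ | _
    · exact ⟨x, (h1 x).symm⟩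
    · exact ⟨x, rfl⟩
  obtain ⟨x, hx⟩ := h6 φ
  obtain ⟨y, hy⟩ := h6 ψ
  rw [hx, hy, h5 x y]

/-- The functions on the faces which have equal values on the left and on the right of each
crossing of `S`. -/
noncomputable def kerS (e : Perm (C × Bool)) (S : Finset C) :
    (Faces e → ZMod 2) →ₗ[ZMod 2] (S → ZMod 2) where
  toFun f c := f (fW e c) - f (fE e c)
  map_add' f g := by funext c; simp; ring
  map_smul' a f := by funext c; simp; ring

theorem mem_kerS {S : Finset C} {f : Faces e → ZMod 2} :
    f ∈ LinearMap.ker (kerS e S) ↔ ∀ c ∈ S, f (fW e c) = f (fE e c) := by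
  rw [LinearMap.mem_ker]
  constructor
  · intro h c hc
    have := congrFun h ⟨c, hc⟩
    exact sub_eq_zero.1 this
  · intro h
    funext c
    exact sub_eq_zero.2 (h c.1 c.2)

theorem finrank_kerS [Finite C] (hp : Planar e) (S : Finset C) :
    Nat.card C + 2 ≤ Module.finrank (ZMod 2) (LinearMap.ker (kerS e S)) + S.card := by
  classical
  have : Fintype (Faces e) := Fintype.ofFinite _
  have h1 := LinearMap.finrank_range_add_finrank_ker (kerS e S)
  have h2 : Module.finrank (ZMod 2) (LinearMap.range (kerS e S)) ≤ S.card := by
    refine (Submodule.finrank_le _).trans ?_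
    rw [Module.finrank_fintype_fun_eq_card]
    simp
  have h3 : Module.finrank (ZMod 2) (Faces e → ZMod 2) = Nat.card C + 2 := by
    rw [Module.finrank_fintype_fun_eq_card, ← Nat.card_eq_fintype_card]
    exact hp
  omega

theorem zmod2_cases (a b : ZMod 2) : a = b ∨ a = b + 1 := by
  revert a b; decide

/-- The sum of the values on the two sides of an arc is the same for all arcs. -/
theorem sum_sides (h : sB e = 1) (f : Faces e → ZMod 2) (hf : ∀ c, f (fW e c) = f (fE e c))
    (x y : C × Bool) : f (fL e x) + f (fR e x) = f (fL e y) + f (fR e y) := by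
  refine const_of_sB h (fun x => f (fL e x) + f (fR e x)) ?_ ?_ x y
  · intro c
    simp only [fL_true, fR_true, fL_false, fR_false, hf]
    ring
  · intro c
    simp only [fL_symm_true, fR_symm_true, fL_symm_false, fR_symm_false, hf]
    ring

/-- A function on the faces which separates the two sides of every arc. -/
theorem exists_sep [Finite C] [Nonempty C] (hk : IsKnot e) (hp : Planar e) (h : sB e = 1) :
    ∃ g : Faces e → ZMod 2, (∀ c, g (fW e c) = g (fE e c)) ∧ ∀ x, g (fL e x) ≠ g (fR e x) := by
  classical
  have : Fintype C := Fintype.ofFinite C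
  have h1 := finrank_kerS hp (Finset.univ : Finset C)
  rw [Finset.card_univ, Nat.card_eq_fintype_card] at h1
  have h2 : ∃ g ∈ LinearMap.ker (kerS e Finset.univ), ¬ ∀ φ ψ, g φ = g ψ := by
    by_contra hc
    push Not at hc
    have h3 : LinearMap.ker (kerS e Finset.univ) ≤
        Submodule.span (ZMod 2) {(fun _ => 1 : Faces e → ZMod 2)} := by
      intro g hg
      rw [Submodule.mem_span_singleton]
      obtain ⟨c⟩ := ‹Nonempty C›
      refine ⟨g (fW e c), ?_⟩
      funext φ
      simp [hc g hg (fW e c) φ]
    have : Fintype (Faces e) := Fintype.ofFinite _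
    have h4 := Submodule.finrank_mono h3
    have h5 := finrank_span_le_card (R := ZMod 2) (M := Faces e → ZMod 2) {(fun _ => 1)}
    simp at h5
    omega
  obtain ⟨g, hg, hg2⟩ := h2
  rw [mem_kerS] at hg
  have hg' : ∀ c, g (fW e c) = g (fE e c) := fun c => hg c (Finset.mem_univ c)
  refine ⟨g, hg', ?_⟩
  intro x hx
  apply hg2
  refine const_of_sides hk g ?_
  intro y
  have h6 := sum_sides h g hg' x y
  rw [hx, CharTwo.add_self_eq_zero] at h6
  exact (CharTwo.add_eq_zero.1 h6.symm)

/-- A function which separates the left and the right side of a given crossing only. -/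
theorem exists_cut [Finite C] (hk : IsKnot e) (hp : Planar e) (h : sB e = 1) (d : C) :
    ∃ f : Faces e → ZMod 2, (∀ c, c ≠ d → f (fW e c) = f (fE e c)) ∧
      f (fW e d) ≠ f (fE e d) := by
  classical
  have : Fintype C := Fintype.ofFinite C
  have : Nonempty C := ⟨d⟩
  obtain ⟨g, hg1, hg2⟩ := exists_sep hk hp h
  by_contra hc
  push Not at hc
  have h1 := finrank_kerS hp (Finset.univ.erase d : Finset C)
  rw [Finset.card_erase_of_mem (Finset.mem_univ d), Finset.card_univ,
    Nat.card_eq_fintype_card] at h1
  have hpos : 0 < Fintype.card C := Fintype.card_pos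
  have : Fintype (Faces e) := Fintype.ofFinite _
  obtain ⟨s, hs⟩ : ∃ s : Finset (Faces e → ZMod 2), s = {(fun _ => 1), g} := ⟨_, rfl⟩
  have h3 : LinearMap.ker (kerS e (Finset.univ.erase d)) ≤
      Submodule.span (ZMod 2) (s : Set (Faces e → ZMod 2)) := by
    rw [hs]
    intro f hf
    rw [mem_kerS] at hf
    have hf1 : ∀ c, c ≠ d → f (fW e c) = f (fE e c) := fun c hc => hf c (by simp [hc])
    have hf2 : ∀ c, f (fW e c) = f (fE e c) := by
      intro c
      by_cases hcd : c = d
      · rw [hcd]
        exact hc f hf1
      · exact hf1 c hcd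
    simp only [Finset.coe_insert, Finset.coe_singleton]
    rw [Submodule.mem_span_pair]
    have key : ∀ f : Faces e → ZMod 2, (∀ c, f (fW e c) = f (fE e c)) →
        (f (fL e (d, true)) = f (fR e (d, true))) → ∃ a : ZMod 2, f = fun _ => a := by
      intro f hf hx
      refine ⟨f (fW e d), ?_⟩
      funext φ
      refine const_of_sides hk f ?_ φ (fW e d)
      intro y
      have h6 := sum_sides h f hf (d, true) y
      rw [hx, CharTwo.add_self_eq_zero] at h6
      exact (CharTwo.add_eq_zero.1 h6.symm)
    by_cases hx : f (fL e (d, true)) = f (fR e (d, true))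
    · obtain ⟨a, ha⟩ := key f hf2 hx
      refine ⟨a, 0, ?_⟩
      rw [ha]
      funext φ
      simp
    · obtain ⟨a, ha⟩ := key (f + g) (fun c => by simp [hf2 c, hg1 c]) (by
        have h7 := hg2 (d, true)
        simp only [Pi.add_apply]
        generalize f (fL e (d, true)) = p at *
        generalize f (fR e (d, true)) = q at *
        generalize g (fL e (d, true)) = r at *
        generalize g (fR e (d, true)) = s at *
        revert p q r s
        decide)
      refine ⟨a, 1, ?_⟩
      funext φ
      have h8 := congrFun ha φ
      simp only [Pi.add_apply] at h8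
      simp only [Pi.add_apply, Pi.smul_apply, smul_eq_mul, one_mul, mul_one]
      rw [← h8, add_assoc, CharTwo.add_self_eq_zero, add_zero]
  have h4 := Submodule.finrank_mono h3
  have h5 := finrank_span_finset_le_card (R := ZMod 2) s
  have h6 : s.card ≤ 2 := by
    rw [hs]
    exact Finset.card_le_two
  unfold Set.finrank at h5
  have h7 := (h4.trans h5).trans h6
  omega

end Pool.Agent.Helper71.TG
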