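import Pool.Agent.Helper71.TG.Walk

/-!
# Finding a place for a slide
-/

namespace Pool.Agent.Helper71.TG

open Equiv

variable {C : Type} {e : Perm (C × Bool)}

theorem hasKink_of_pw {β : Bool} {c : C} {x : Bool} (h : pw e β (c, x) = (c, !x)) :
    HasKink e := by
  cases β
  · rw [pw_false, Equiv.Perm.inv_eq_iff_eq] at h
    exact ⟨c, !x, by rw [← h]; simp⟩
  · exact ⟨c, x, h⟩

/-- The data of a face with one left or right corner, at the end of `s 0`, such that all further
sides from the third one on are sides of antiparallel bigons. -/
structure LeafRun (e : Perm (C × Bool)) (s : ℕ → (C × Bool) × Bool) (m : ℕ) : Prop where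
  succ : ∀ i < m, s (i + 1) = step e (s i)
  per : s m = s 0
  inj : ∀ i < m, ∀ j < m, s i = s j → i = j
  side : IsSide e (s 0)
  notSide : ∀ i, 1 ≤ i → i < m → ¬ IsSide e (s i)
  three : 3 ≤ m
  odd : m % 2 = 1
  big : ∀ i, 3 ≤ i → i < m → Big e (s i)

theorem LeafRun.place (hk : IsKnot e) (hn : ¬ HasKink e) (hs : Sep e)
    {s : ℕ → (C × Bool) × Bool} {m : ℕ} (L : LeafRun e s m) :
    ∃ n d a b, Place (pw e (s 0).2) n d a b := by
  obtain ⟨n, hm⟩ : ∃ n, m = 2 * n + 3 := ⟨(m - 3) / 2, by have := L.three; have := L.odd; omega⟩
  subst hm
  set β := (s 0).2 with hβ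
  set a := (arr e (s 0)).1 with ha
  set b := (arr e (s 1)).1 with hb
  set d : ℕ → C := fun i => (arr e (s (i + 2))).1 with hd
  have A0 : arr e (s 0) = (a, true) := arr_of_isSide L.side
  have s1 : s 1 = ((a, false), β) := by
    rw [L.succ 0 (by omega), step_of_isSide L.side]
  have A1 : arr e (s 1) = (b, false) := arr_of_not_isSide (L.notSide 1 le_rfl (by omega))
  have s2 : s 2 = ((b, true), !β) := by
    have h2 : (s 1).2 = β := by rw [s1]
    rw [L.succ 1 (by omega), step_of_not_isSide (L.notSide 1 le_rfl (by omega)), h2]
  have A2 : ∀ i ≤ 2 * n, arr e (s (i + 2)) = (d i, false) := fun i hi =>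
    arr_of_not_isSide (L.notSide (i + 2) (by omega) (by omega))
  have dir : ∀ i ≤ 2 * n, (s (i + 2)).2 = if ev i then !β else β := by
    intro i
    induction i with
    | zero => intro _; simp [s2]
    | succ i ih =>
      intro hi
      rw [L.succ (i + 2) (by omega), step_of_not_isSide (L.notSide _ (by omega) (by omega)),
        ih (by omega), ev_succ]
      cases ev i <;> simp
  have s3 : ∀ i ≤ 2 * n, s (i + 3) = ((d i, true), if ev i then β else !β) := by
    intro i hi
    rw [L.succ (i + 2) (by omega), step_of_not_isSide (L.notSide _ (by omega) (by omega)),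
      dir i hi]
    cases ev i <;> simp [hd]
  have s0 : s 0 = ((d (2 * n), true), β) := by
    rw [← L.per, s3 (2 * n) le_rfl]
    simp
  have third : pw e β (a, false) = (b, false) := by
    have := A1
    rw [s1] at this
    exact this
  have exit₁ : pw e β (d (2 * n), true) = (a, true) := by
    have := A0
    rw [s0] at this
    exact this
  have exit₂ : pw e β (d 0, false) = (b, true) := by
    have := A2 0 (by omega)
    rw [s2] at this
    have h : pw e (!β) (b, true) = (d 0, false) := this
    rw [← h, pw_pw_not]
  -- the equations along the region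
  have both : ∀ i < 2 * n, pw e β (d i, ev i) = (d (i + 1), ev (i + 1)) ∧
      pw e β (d (i + 1), !ev (i + 1)) = (d i, !ev i) := by
    intro i hi
    have h1 := L.big (i + 3) (by omega) (by omega)
    have h2 := A2 (i + 1) (by omega)
    have h3 := s3 i (by omega)
    have h4 : i + 1 + 2 = i + 3 := by omega
    rw [h4, h3] at h2
    rw [h3] at h1
    obtain ⟨-, h5⟩ := h1
    rw [bigonAt_iff] at h5
    obtain ⟨c', h6, h7⟩ := h5
    simp only at h6 h7
    have h8 : pw e (if ev i then β else !β) (d i, true) = (d (i + 1), false) := h2
    rw [h6] at h8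
    have h9 : c' = d (i + 1) := congrArg Prod.fst h8
    subst h9
    rw [ev_succ]
    cases hi : ev i
    · rw [hi] at h6 h7
      simp only [Bool.false_eq_true, if_false, Bool.not_false] at h6 h7 ⊢
      constructor
      · rw [← h7, pw_pw_not]
      · rw [Bool.not_true, ← h6, pw_pw_not]
    · rw [hi] at h6 h7
      simp only [if_true, Bool.not_true, Bool.not_false] at h6 h7 ⊢
      exact ⟨h6, h7⟩
  have nk : ∀ c x, pw e β (c, x) ≠ (c, !x) := fun c x h => hn (hasKink_of_pw h)
  -- the crossings of the region are distinct
  have odd_ne : ∀ δ i j, i + δ = j → δ % 2 = 1 → j ≤ 2 * n → d i ≠ d j := by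
    intro δ
    induction δ using Nat.strong_induction_on with
    | _ δ ih =>
      intro i j hij hδ hj h
      have evj : ev j = !ev i := by
        have : ∀ k, k % 2 = 1 → ev (i + k) = !ev i := by
          intro k hk
          unfold ev
          rcases Nat.mod_two_eq_zero_or_one i with h | h
          · have : (i + k) % 2 = 1 := by omega
            simp [h, this]
          · have : (i + k) % 2 = 0 := by omega
            simp [h, this]
        rw [← hij]
        exact this δ hδ
      have f1 := (both i (by omega)).1
      obtain ⟨k, rfl⟩ : ∃ k, j = k + 1 := ⟨j - 1, by omega⟩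
      have f2 := (both k (by omega)).2
      rw [evj, Bool.not_not, ← h, f1] at f2
      have f3 : d (i + 1) = d k := (Prod.ext_iff.1 f2).1
      rcases Nat.lt_or_ge 1 δ with h1 | h1
      · exact ih (δ - 2) (by omega) (i + 1) k (by omega) (by omega) (by omega) f3
      · have : k = i := by omega
        subst this
        rw [ev_succ, f3] at f1
        exact nk _ _ f1
  have inj : ∀ i ≤ 2 * n, ∀ j ≤ 2 * n, d i = d j → i = j := by
    have key : ∀ i j, i < j → j ≤ 2 * n → d i ≠ d j := by
      intro i j hij hj h
      by_cases hp : (j - i) % 2 = 1
      · exact odd_ne (j - i) i j (by omega) hp hj h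
      · have hev : ev i = ev j := by
          unfold ev
          congr 1
          apply propext
          omega
        have e1 := s3 i (by omega)
        have e2 := s3 j hj
        rw [← h, ← hev, ← e1] at e2
        rcases hj.lt_or_eq with hj' | rfl
        · have := L.inj _ (by omega) _ (by omega) e2
          omega
        · rw [L.per] at e2
          have := L.inj _ (by omega) _ (by omega) e2
          omega
    intro i hi j hj h
    rcases lt_trichotomy i j with h1 | h1 | h1
    · exact absurd h (key i j h1 hj)
    · exact h1
    · exact absurd h.symm (key j i h1 hi)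
  have ab : a ≠ b := by
    intro h
    rw [← h] at third
    obtain ⟨k, hk⟩ := (hk (a, false) (a, true))
    have h1 : e (a, false) = (a, false) := by
      cases hβ' : β
      · rw [hβ', pw_false, Equiv.Perm.inv_eq_iff_eq] at third
        exact third.symm
      · rw [hβ'] at third
        exact third
    have h2 : (e ^ k) (a, false) = (a, false) := Equiv.Perm.zpow_apply_eq_self_of_apply_eq_self h1 k
    rw [h2] at hk
    simp at hk
  have ne_b : ∀ i ≤ 2 * n, d i ≠ b := by
    intro i hi h
    cases hev : ev i
    · have h3 := s3 i hi
      rw [hev, h] at h3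
      simp only [Bool.false_eq_true, if_false] at h3
      rw [← s2] at h3
      have hi' : i ≠ 2 * n := by
        rintro rfl
        simp at hev
      have := L.inj _ (by omega) _ (by omega) h3
      omega
    · rcases Nat.eq_zero_or_pos i with rfl | hi0
      · apply nk (d 0) false
        rw [exit₂, h]
        rfl
      · obtain ⟨k, rfl⟩ : ∃ k, i = k + 1 := ⟨i - 1, by omega⟩
        have f1 := (both k (by omega)).1
        rw [hev, h, ← exit₂] at f1
        have f2 := congrArg Prod.fst ((pw e β).injective f1)
        simp only at f2
        have := inj _ (by omega) _ (by omega) f2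
        subst this
        simp [ev] at hev
  have hface : ∀ i ≤ 2 * n + 3, face e (s i) = face e (s 0) := by
    intro i
    induction i with
    | zero => intro _; rfl
    | succ i ih => intro hi; rw [L.succ i (by omega), face_step, ih (by omega)]
  have ne_a : ∀ i ≤ 2 * n, d i ≠ a := by
    intro i hi h
    have h3 := s3 i hi
    cases hev : ev i
    · rw [hev, h] at h3
      simp only [Bool.false_eq_true, if_false] at h3
      apply hs (s 0)
      have : opp e (s 0) = s (i + 3) := by
        rw [h3, opp, A0]
      rw [this, hface (i + 3) (by omega)]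
    · rw [hev, h] at h3
      simp only [if_true] at h3
      apply hs (s 1)
      have h4 : step e (opp e (s 1)) = s (i + 3) := by
        have h5 : arr e (opp e (s 1)) = (a, false) := by
          rw [s1]
          simp [opp, arr]
        have h6 : ¬ IsSide e (opp e (s 1)) := by
          rw [IsSide, h5]; simp
        rw [step_of_not_isSide h6, h5, h3, s1]
        simp [opp]
      rw [← face_step e (opp e (s 1)), h4, hface 1 (by omega), hface (i + 3) (by omega)]
  exact ⟨n, d, a, b,
    { inj := inj
      ne_a := ne_a
      ne_b := ne_b
      ab := ab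
      fwd := fun i hi => (both i hi).1
      bwd := fun i hi => (both i hi).2
      exit₁ := exit₁
      exit₂ := exit₂
      third := third }⟩

end Pool.Agent.Helper71.TG
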