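import Mathlib

/-!
# A counting lemma for cyclic sequences
-/

namespace Pool.Agent.Helper71.TG

theorem sum_three {m : ℕ} (v : ℕ → ℕ) {a b c : ℕ} (ha : a < m) (hb : b < m) (hc : c < m)
    (h1 : a ≠ b) (h2 : a ≠ c) (h3 : b ≠ c) : v a + v b + v c ≤ ∑ i ∈ Finset.range m, v i := by
  have h : ({a, b, c} : Finset ℕ) ⊆ Finset.range m := by
    intro x hx
    simp only [Finset.mem_insert, Finset.mem_singleton] at hx
    rw [Finset.mem_range]
    omega
  have := Finset.sum_le_sum_of_subset (f := v) h
  rw [Finset.sum_insert (by simp [h1, h2]), Finset.sum_insert (by simp [h3]),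
    Finset.sum_singleton] at this
  omega

theorem sum_four {m : ℕ} (v : ℕ → ℕ) {a b c d : ℕ} (ha : a < m) (hb : b < m) (hc : c < m)
    (hd : d < m) (h1 : a ≠ b) (h2 : a ≠ c) (h3 : a ≠ d) (h4 : b ≠ c) (h5 : b ≠ d) (h6 : c ≠ d) :
    v a + v b + v c + v d ≤ ∑ i ∈ Finset.range m, v i := by
  have h : ({a, b, c, d} : Finset ℕ) ⊆ Finset.range m := by
    intro x hx
    simp only [Finset.mem_insert, Finset.mem_singleton] at hx
    rw [Finset.mem_range]
    omega
  have := Finset.sum_le_sum_of_subset (f := v) h
  rw [Finset.sum_insert (by simp [h1, h2, h3]), Finset.sum_insert (by simp [h4, h5]),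
    Finset.sum_insert (by simp [h6]), Finset.sum_singleton] at this
  omega

theorem sum_five {m : ℕ} (v : ℕ → ℕ) {a b c d f : ℕ} (ha : a < m) (hb : b < m) (hc : c < m)
    (hd : d < m) (hf : f < m) (h1 : a < b) (h2 : b < c) (h3 : c < d) (h4 : d < f) :
    v a + v b + v c + v d + v f ≤ ∑ i ∈ Finset.range m, v i := by
  have h : ({a, b, c, d, f} : Finset ℕ) ⊆ Finset.range m := by
    intro x hx
    simp only [Finset.mem_insert, Finset.mem_singleton] at hx
    rw [Finset.mem_range]
    omega
  have := Finset.sum_le_sum_of_subset (f := v) h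
  rw [Finset.sum_insert (by simp only [Finset.mem_insert, Finset.mem_singleton]; omega),
    Finset.sum_insert (by simp only [Finset.mem_insert, Finset.mem_singleton]; omega),
    Finset.sum_insert (by simp only [Finset.mem_insert, Finset.mem_singleton]; omega),
    Finset.sum_insert (by simp only [Finset.mem_singleton]; omega),
    Finset.sum_singleton] at this
  omega

theorem seq_bound (m : ℕ) (S G : ℕ → Prop) (v : ℕ → ℕ) (hm : 0 < m) (hS0 : S 0) (hSm : S m)
    (hv2 : ∀ i, S i → 2 ≤ v i) (hv1 : ∀ i, ¬ S i → ¬ (G i ∧ G (i + 1)) → 1 ≤ v i)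
    (hG : ∀ i, G (i + 1) → ¬ S i ∧ ¬ S (i + 1))
    (hpar : ∀ [DecidablePred S], Even (((Finset.range m).filter (fun i => ¬ S i)).card))
    (h1 : m ≠ 1) (h2 : ¬ (m = 2 ∧ S 1)) :
    6 ≤ ∑ i ∈ Finset.range m, v i ∨
      ((∀ i, 1 ≤ i → i < m → ¬ S i) ∧ 3 ≤ m ∧ m % 2 = 1 ∧
        ((∀ i, 3 ≤ i → i < m → G i) ∨ (∀ i, 2 ≤ i → i + 1 < m → G i))) := by
  classical
  have after : ∀ i, S i → ¬ S (i + 1) → 1 ≤ v (i + 1) := fun i hi hi1 =>
    hv1 _ hi1 (fun h => (hG i h.1).1 hi)
  have before : ∀ i, ¬ S i → S (i + 1) → 1 ≤ v i := fun i hi hi1 =>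
    hv1 _ hi (fun h => (hG i h.2).2 hi1)
  by_cases hA : ∃ a, 1 ≤ a ∧ a < m ∧ S a
  · left
    obtain ⟨a, ha1, ha2, ha⟩ := hA
    by_cases hB : ∃ b, 1 ≤ b ∧ b < m ∧ b ≠ a ∧ S b
    · obtain ⟨b, hb1, hb2, hba, hb⟩ := hB
      have := sum_three v hm ha2 hb2 (by omega) (by omega) (fun h => hba h.symm)
      have := hv2 0 hS0
      have := hv2 a ha
      have := hv2 b hb
      omega
    · push Not at hB
      have hc : (Finset.range m).filter (fun i => ¬ S i) =
          ((Finset.range m).erase 0).erase a := by
        ext i
        simp only [Finset.mem_filter, Finset.mem_range, Finset.mem_erase]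
        constructor
        · rintro ⟨h1, h2⟩
          refine ⟨?_, ?_, h1⟩
          · rintro rfl
            exact h2 ha
          · rintro rfl
            exact h2 hS0
        · rintro ⟨h1, h2, h3⟩
          exact ⟨h3, hB i (by omega) h3 h1⟩
      have hp := hpar
      rw [hc, Finset.card_erase_of_mem (by simp; omega), Finset.card_erase_of_mem (by simpa using hm),
        Finset.card_range] at hp
      have hm4 : 4 ≤ m := by
        rcases hp with ⟨r, hr⟩
        have : m ≠ 2 := by
          rintro rfl
          obtain rfl : a = 1 := by omega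
          exact h2 ⟨rfl, ha⟩
        omega
      have q0 := hv2 0 hS0
      have qa := hv2 a ha
      rcases Nat.lt_or_ge 2 a with h3 | h3
      · -- a ≥ 3
        obtain ⟨k, rfl⟩ : ∃ k, a = k + 1 := ⟨a - 1, by omega⟩
        have q1 := after 0 hS0 (hB 1 le_rfl (by omega) (by omega))
        have q2 := before k (hB k (by omega) (by omega) (by omega)) ha
        have := sum_four v hm ha2 (show 0 + 1 < m by omega) (show k < m by omega) (by omega)
          (by omega) (by omega) (by omega) (by omega) (by omega)
        omega
      · rcases Nat.lt_or_ge 1 a with h4 | h4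
        · obtain rfl : a = 2 := by omega
          have q1 := after 0 hS0 (hB 1 le_rfl (by omega) (by omega))
          have q2 := after 2 ha (hB 3 (by omega) (by omega) (by omega))
          have := sum_four v hm ha2 (show 0 + 1 < m by omega) (show 2 + 1 < m by omega) (by omega)
            (by omega) (by omega) (by omega) (by omega) (by omega)
          omega
        · obtain rfl : a = 1 := by omega
          have q1 := after 1 ha (hB 2 (by omega) (by omega) (by omega))
          obtain ⟨k, rfl⟩ : ∃ k, m = k + 1 := ⟨m - 1, by omega⟩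
          have q2 := before k (hB k (by omega) (by omega) (by omega)) hSm
          have := sum_four v hm ha2 (show 1 + 1 < k + 1 by omega) (show k < k + 1 by omega)
            (by omega) (by omega) (by omega) (by omega) (by omega) (by omega)
          omega
  · push Not at hA
    have hc : (Finset.range m).filter (fun i => ¬ S i) = (Finset.range m).erase 0 := by
      ext i
      simp only [Finset.mem_filter, Finset.mem_range, Finset.mem_erase]
      constructor
      · rintro ⟨h1, h2⟩
        refine ⟨?_, h1⟩
        rintro rfl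
        exact h2 hS0
      · rintro ⟨h1, h2⟩
        exact ⟨h2, hA i (by omega) h2⟩
    have hp := hpar
    rw [hc, Finset.card_erase_of_mem (by simpa using hm), Finset.card_range] at hp
    have hmo : m % 2 = 1 := by
      rcases hp with ⟨r, hr⟩
      omega
    have hm3 : 3 ≤ m := by omega
    by_cases hs : (∀ i, 3 ≤ i → i < m → G i) ∨ (∀ i, 2 ≤ i → i + 1 < m → G i)
    · exact Or.inr ⟨hA, hm3, hmo, hs⟩
    · left
      push Not at hs
      obtain ⟨⟨i, hi1, hi2, hi⟩, ⟨j, hj1, hj2, hj⟩⟩ := hs
      have q0 := hv2 0 hS0
      have w0 := after 0 hS0 (hA 1 le_rfl (by omega))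
      obtain ⟨k, rfl⟩ : ∃ k, m = k + 1 := ⟨m - 1, by omega⟩
      have wk := before k (hA k (by omega) (by omega)) hSm
      have nv : ∀ i, 1 ≤ i → i < k + 1 → ¬ G i → 1 ≤ v i := fun i h1 h2 h =>
        hv1 i (hA i h1 h2) (fun h' => h h'.1)
      have nv' : ∀ i, 1 ≤ i → i < k + 1 → ¬ G (i + 1) → 1 ≤ v i := fun i h1 h2 h =>
        hv1 i (hA i h1 h2) (fun h' => h h'.2)
      obtain ⟨p, rfl⟩ : ∃ p, i = p + 1 := ⟨i - 1, by omega⟩
      obtain ⟨q, rfl⟩ : ∃ q, j = q + 1 := ⟨j - 1, by omega⟩
      have vi := nv (p + 1) (by omega) (by omega) hi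
      have vi' := nv' p (by omega) (by omega) hi
      have vj := nv (q + 1) (by omega) (by omega) hj
      have vj' := nv' q (by omega) (by omega) hj
      rcases lt_trichotomy p q with h | h | h
      · rcases Nat.lt_or_ge (p + 1) q with h' | h'
        · have := sum_five v hm (show p < k + 1 by omega) (show p + 1 < k + 1 by omega)
            (show q < k + 1 by omega) (show q + 1 < k + 1 by omega) (by omega) (by omega)
            (by omega) (by omega)
          omega
        · obtain rfl : q = p + 1 := by omega
          have := sum_five v hm (show 0 + 1 < k + 1 by omega) (show p < k + 1 by omega)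
            (show p + 1 < k + 1 by omega) (show p + 1 + 1 < k + 1 by omega) (by omega) (by omega)
            (by omega) (by omega)
          omega
      · subst h
        have := sum_five v hm (show 0 + 1 < k + 1 by omega) (show p < k + 1 by omega)
            (show p + 1 < k + 1 by omega) (show k < k + 1 by omega) (by omega) (by omega)
            (by omega) (by omega)
        omega
      · rcases Nat.lt_or_ge (q + 1) p with h' | h'
        · have := sum_five v hm (show q < k + 1 by omega) (show q + 1 < k + 1 by omega)
            (show p < k + 1 by omega) (show p + 1 < k + 1 by omega) (by omega) (by omega)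
            (by omega) (by omega)
          omega
        · obtain rfl : p = q + 1 := by omega
          rcases Nat.lt_or_ge 1 q with h'' | h''
          · have := sum_five v hm (show 0 + 1 < k + 1 by omega) (show q < k + 1 by omega)
              (show q + 1 < k + 1 by omega) (show q + 1 + 1 < k + 1 by omega) (by omega) (by omega)
              (by omega) (by omega)
            omega
          · obtain rfl : q = 1 := by omega
            have := sum_five v hm (show 1 < k + 1 by omega) (show 1 + 1 < k + 1 by omega)
              (show 1 + 1 + 1 < k + 1 by omega) (show k < k + 1 by omega) (by omega) (by omega)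
              (by omega) (by omega)
            omega

end Pool.Agent.Helper71.TG
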