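import Pool.Agent.Helper71.TG.Sigma
import Pool.Agent.Helper71.TG.Seq

/-!
# Diagrams without a place for a slide have at least twelve ends of twist regions
-/

namespace Pool.Agent.Helper71.TG

open Equiv

variable {C : Type} {e : Perm (C × Bool)}

theorem pw_mir (e : Perm (C × Bool)) (β : Bool) (z : C × Bool) :
    pw (mir e) β z = sw (pw e β (sw z)) := by
  cases β
  · rw [pw_false, mir_inv]; rfl
  · rfl

theorem bigonAt_mir (e : Perm (C × Bool)) (c : C) (x : Bool) :
    BigonAt (mir e) c x ↔ BigonAt e c (!x) := by
  have h : ∀ z, mir e z = sw (e (sw z)) := fun z => rfl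
  unfold BigonAt
  constructor
  · rintro ⟨c', h1, h2⟩
    refine ⟨c', ?_, ?_⟩
    · have h3 := congrArg sw h1
      rw [h, sw_sw] at h3
      simpa using h3
    · have h3 := congrArg sw h2
      rw [h, sw_sw] at h3
      simpa using h3
  · rintro ⟨c', h1, h2⟩
    refine ⟨c', ?_, ?_⟩
    · rw [h]
      simp only [sw_apply, h1, Bool.not_not]
    · rw [h]
      simp only [sw_apply, h2, Bool.not_not]

theorem hasKink_mir (h : HasKink (mir e)) : HasKink e := by
  obtain ⟨c, x, h⟩ := h
  have h2 : sw (e (sw (c, x))) = (c, !x) := h
  have h3 := congrArg sw h2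
  rw [sw_sw] at h3
  exact ⟨c, !x, by simpa using h3⟩

/-- The traveller seen from the other side of the sphere, going backwards. -/
def mirDart (e : Perm (C × Bool)) (p : (C × Bool) × Bool) : (C × Bool) × Bool :=
  (sw (arr e p), !p.2)

theorem arr_mirDart (e : Perm (C × Bool)) (p : (C × Bool) × Bool) :
    arr (mir e) (mirDart e p) = sw p.1 := by
  simp only [arr, mirDart, pw_mir, sw_sw, pw_not_pw]

theorem isSide_mirDart (e : Perm (C × Bool)) (p : (C × Bool) × Bool) :
    IsSide (mir e) (mirDart e (step e p)) ↔ IsSide e p := by
  rw [IsSide, arr_mirDart, step_def, sw_sw]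
  rfl

theorem step_mirDart (e : Perm (C × Bool)) (p : (C × Bool) × Bool) :
    step (mir e) (mirDart e (step e p)) = mirDart e p := by
  have h : arr (mir e) (mirDart e (step e p)) = arr e p := by
    rw [arr_mirDart, step_def, sw_sw]
  rw [step_def, h]
  refine Prod.ext rfl ?_
  simp only [mirDart, step_def]
  cases (arr e p).2 <;> simp

theorem big_mirDart (e : Perm (C × Bool)) (p : (C × Bool) × Bool) :
    Big (mir e) (mirDart e p) ↔ Big e p := by
  rw [big_iff e p]
  simp only [Big, mirDart, sw_apply, bigonAt_mir, Bool.not_not, IsSide]
  simp

theorem mirDart_injective (e : Perm (C × Bool)) : Function.Injective (mirDart e) := by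
  intro p q h
  have h1 := congrArg Prod.snd h
  have h2 := congrArg Prod.fst h
  simp only [mirDart] at h1 h2
  have h3 : p.2 = q.2 := by simpa using h1
  have h4 := sw.injective h2
  simp only [arr, h3] at h4
  exact Prod.ext ((pw e q.2).injective h4) h3

theorem exists_slide_of_place {β : Bool} {n : ℕ} {d : ℕ → C} {a b : C}
    (P : Place (pw e β) n d a b) : ∃ e', Slide e e' := by
  cases β
  · obtain ⟨f, hf⟩ := exists_slideUnder P
    refine ⟨f⁻¹, Or.inr (Or.inl ?_)⟩
    rw [inv_inv]
    exact hf
  · obtain ⟨f, hf⟩ := exists_slideUnder P
    exact ⟨f, Or.inl hf⟩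

theorem exists_slide_of_place_mir {β : Bool} {n : ℕ} {d : ℕ → C} {a b : C}
    (P : Place (pw (mir e) β) n d a b) : ∃ e', Slide e e' := by
  cases β
  · obtain ⟨f, hf⟩ := exists_slideUnder P
    refine ⟨mir f⁻¹, Or.inr (Or.inr (Or.inr ?_))⟩
    rw [mir_mir, inv_inv]
    exact hf
  · obtain ⟨f, hf⟩ := exists_slideUnder P
    refine ⟨mir f, Or.inr (Or.inr (Or.inl ?_))⟩
    rw [mir_mir]
    exact hf

/-- The walk starting with `p`. -/
def walk (e : Perm (C × Bool)) (p : (C × Bool) × Bool) (i : ℕ) : (C × Bool) × Bool :=
  (step e)^[i] p

theorem walk_succ (e : Perm (C × Bool)) (p : (C × Bool) × Bool) (i : ℕ) :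
    walk e p (i + 1) = step e (walk e p i) := Function.iterate_succ_apply' _ _ _

theorem face_walk (e : Perm (C × Bool)) (p : (C × Bool) × Bool) (i : ℕ) :
    face e (walk e p i) = face e p := by
  induction i with
  | zero => rfl
  | succ i ih => rw [walk_succ, face_step, ih]

/-- The direction changes at the corners which are not left or right corners. -/
theorem walk_parity (e : Perm (C × Bool)) (p : (C × Bool) × Bool)
    [DecidablePred fun i => IsSide e (walk e p i)] (m : ℕ) :
    (Even (((Finset.range m).filter (fun i => ¬ IsSide e (walk e p i))).card) ↔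
      (walk e p m).2 = p.2) := by
  induction m with
  | zero => simp [walk]
  | succ m ih =>
    rw [Finset.range_add_one, Finset.filter_insert]
    by_cases h : IsSide e (walk e p m)
    · rw [if_neg (by simpa using h), ih, walk_succ, step_of_isSide h]
    · rw [if_pos h, Finset.card_insert_of_notMem (by simp), Nat.even_add_one, ih, walk_succ,
        step_of_not_isSide h]
      cases (walk e p m).2 <;> cases p.2 <;> simp

theorem step_ne_of_not_hasKink (hn : ¬ HasKink e) (p : (C × Bool) × Bool) : step e p ≠ p := by
  intro h
  by_cases hs : IsSide e p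
  · have h1 := step_of_isSide hs
    rw [h] at h1
    have h2 := arr_of_isSide hs
    generalize (arr e p).1 = c at *
    rw [h1] at h2
    have h3 : pw e p.2 (c, false) = (c, true) := h2
    exact hn (hasKink_of_pw (x := false) h3)
  · have h1 := congrArg Prod.snd (step_of_not_isSide hs)
    rw [h] at h1
    simp at h1

section Main

variable [Fintype C] (hk : IsKnot e) (hp : Planar e) (h1 : sB e = 1) (hn : ¬ HasKink e)
include hk hp h1 hn

/-- The weights of the corners of a face with a left or right corner sum up to at least six. -/
theorem face_sum_side (hS : ¬ ∃ e', Slide e e') (p : (C × Bool) × Bool) (hside : IsSide e p)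
    [DecidablePred fun q => face e q = face e p] :
    6 ≤ ∑ q ∈ Finset.univ.filter (fun q => face e q = face e p), val e (arr e q) q.2 := by
  classical
  have : Nonempty C := ⟨p.1.1⟩
  have hs : Sep e := sep_of_sB hk hp h1
  set m := Function.minimalPeriod (step e) p with hm
  have hfin : (Function.minimalPeriod (step e) p) ≠ 0 := by
    have : p ∈ Function.periodicPts (step e) :=
      (step e).injective.mem_periodicPts p
    exact (Function.minimalPeriod_pos_of_mem_periodicPts this).ne'
  have hm0 : 0 < m := Nat.pos_of_ne_zero hfin
  have inj : ∀ i < m, ∀ j < m, walk e p i = walk e p j → i = j := by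
    intro i hi j hj h
    exact Function.iterate_injOn_Iio_minimalPeriod hi hj h
  have per : walk e p m = p := Function.iterate_minimalPeriod
  have per' : ∀ i, walk e p (i + m) = walk e p i := by
    intro i
    unfold walk
    rw [Function.iterate_add_apply]
    congr 1
  set v : ℕ → ℕ := fun i => val e (arr e (walk e p i)) (walk e p i).2 with hv
  have hle : ∑ i ∈ Finset.range m, v i ≤
      ∑ q ∈ Finset.univ.filter (fun q => face e q = face e p), val e (arr e q) q.2 := by
    have himg : ∑ i ∈ Finset.range m, v i =
        ∑ q ∈ (Finset.range m).image (walk e p), val e (arr e q) q.2 := by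
      rw [Finset.sum_image]
      intro i hi j hj h
      exact inj i (by simpa using hi) j (by simpa using hj) h
    rw [himg]
    apply Finset.sum_le_sum_of_subset
    intro q hq
    simp only [Finset.mem_image, Finset.mem_range] at hq
    obtain ⟨i, -, rfl⟩ := hq
    simp [face_walk]
  refine le_trans ?_ hle
  have hm1 : m ≠ 1 := by
    intro h
    rw [h] at per
    exact step_ne_of_not_hasKink hn p per
  by_cases h2 : m = 2 ∧ IsSide e (walk e p 1)
  · -- a bigon
    obtain ⟨h2, h3⟩ := h2
    rw [h2] at per
    have w1 : walk e p 1 = (((arr e p).1, false), p.2) := step_of_isSide hside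
    have w2 : walk e p 2 = (((arr e (walk e p 1)).1, false), (walk e p 1).2) := by
      rw [walk_succ]
      exact step_of_isSide h3
    have a0 := arr_of_isSide hside
    have a1 := arr_of_isSide h3
    rw [per] at w2
    set c1 := (arr e p).1 with hc1
    set c0 := (arr e (walk e p 1)).1 with hc0
    have d1 : (walk e p 1).2 = p.2 := by rw [w1]
    rw [d1] at w2
    have q0 : pw e p.2 (c0, false) = (c1, true) := by
      rw [← a0, arr]
      congr 1
      exact (congrArg Prod.fst w2).symm
    have q1 : pw e p.2 (c1, false) = (c0, true) := by
      rw [← a1, arr, d1]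
      congr 1
      exact (congrArg Prod.fst w1).symm
    have b1 : BigonAt e c1 (!p.2) := by
      rw [bigonAt_iff]
      refine ⟨c0, ?_, ?_⟩
      · rw [← q0, pw_not_pw]
      · rw [← q1, pw_not_pw]
    have b0 : BigonAt e c0 (!p.2) := by
      rw [bigonAt_iff]
      refine ⟨c1, ?_, ?_⟩
      · rw [← q1, pw_not_pw]
      · rw [← q0, pw_not_pw]
    have v0 : v 0 = 3 := by
      have : walk e p 0 = p := rfl
      simp only [hv, this]
      rw [a0]
      simp [val, b1]
    have v1 : v 1 = 3 := by
      simp only [hv]
      rw [a1, d1]
      simp [val, b0]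
    rw [h2, Finset.sum_range_succ, Finset.sum_range_one, v0, v1]
  · have hw0 : walk e p 0 = p := rfl
    have key := seq_bound m (fun i => IsSide e (walk e p i)) (fun i => Big e (walk e p i)) v hm0
      (by rw [hw0]; exact hside) (by rw [per]; exact hside)
      (by
        intro i hi
        simp only [hv, val]
        rw [arr_of_isSide hi]
        simp only [if_true]
        split_ifs <;> omega)
      (by
        intro i hi hG
        simp only [hv, val]
        rw [arr_of_not_isSide hi]
        simp only [Bool.false_eq_true, if_false]
        rw [if_neg]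
        rintro ⟨h3, h4⟩
        apply hG
        rw [walk_succ, big_iff, big_step_iff]
        refine ⟨⟨hi, ?_⟩, ⟨hi, ?_⟩⟩
        · cases (walk e p i).2
          · exact h4
          · exact h3
        · cases (walk e p i).2
          · exact h3
          · exact h4)
      (by
        intro i hi
        refine ⟨?_, ?_⟩
        · rw [walk_succ, big_step_iff] at hi
          exact hi.1
        · rw [big_iff] at hi
          exact hi.1)
      (by
        intro _
        have := (walk_parity e p m).2 (by rw [per])
        exact this)
      hm1 h2
    rcases key with key | ⟨k1, k2, k3, k4 | k4⟩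
    · exact key
    · exfalso
      apply hS
      have L : LeafRun e (walk e p) m :=
        { succ := fun i _ => walk_succ e p i
          per := per
          inj := inj
          side := hside
          notSide := k1
          three := k2
          odd := k3
          big := k4 }
      obtain ⟨n, d, a, b, P⟩ := L.place hk hn hs
      exact exists_slide_of_place P
    · exfalso
      apply hS
      have L : LeafRun (mir e) (fun j => mirDart e (walk e p (m + 1 - j))) m :=
        { succ := by
            intro j hj
            obtain ⟨k, hk⟩ : ∃ k, m + 1 - j = k + 1 := ⟨m - j, by omega⟩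
            have hk2 : m + 1 - (j + 1) = k := by omega
            simp only [hk, hk2]
            rw [walk_succ, step_mirDart]
          per := by
            have h3 : m + 1 - m = 1 := by omega
            have h4 : m + 1 - 0 = 1 + m := by omega
            simp only [h3, h4, per']
          inj := by
            intro i hi j hj h
            have h3 := mirDart_injective e h
            have h5 : ∀ i < m, i ≠ 0 → walk e p (m + 1 - i) = walk e p ((m + 1 - i) % m) := by
              intro i hi h0
              rcases Nat.lt_or_ge (m + 1 - i) m with h6 | h6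
              · rw [Nat.mod_eq_of_lt h6]
              · have : m + 1 - i = 0 + m := by omega
                rw [this, per']
                simp
            have h6 : ∀ i < m, walk e p (m + 1 - i) = walk e p ((m + 1 - i) % m) := by
              intro i hi
              by_cases h0 : i = 0
              · subst h0
                have : m + 1 - 0 = 1 + m := by omega
                rw [this, per', Nat.add_mod_right, Nat.mod_eq_of_lt (by omega)]
              · exact h5 i hi h0
            rw [h6 i hi, h6 j hj] at h3
            have h7 := inj _ (Nat.mod_lt _ hm0) _ (Nat.mod_lt _ hm0) h3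
            have h8 : ∀ i < m, (m + 1 - i) % m = if i = 0 then 1 else if i = 1 then 0
                else m + 1 - i := by
              intro i hi
              split_ifs with ha hb
              · subst ha
                have : m + 1 - 0 = 1 + m := by omega
                rw [this, Nat.add_mod_right, Nat.mod_eq_of_lt (by omega)]
              · subst hb
                have : m + 1 - 1 = m := by omega
                rw [this, Nat.mod_self]
              · exact Nat.mod_eq_of_lt (by omega)
            rw [h8 i hi, h8 j hj] at h7
            split_ifs at h7 <;> omega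
          side := by
            have h4 : m + 1 - 0 = m + 1 := by omega
            simp only [h4, walk_succ, isSide_mirDart, per]
            exact hside
          notSide := by
            intro i hi1 hi2
            obtain ⟨k, hk⟩ : ∃ k, m + 1 - i = k + 1 := ⟨m - i, by omega⟩
            simp only [hk, walk_succ, isSide_mirDart]
            exact k1 k (by omega) (by omega)
          three := k2
          odd := k3
          big := by
            intro i hi1 hi2
            rw [big_mirDart]
            exact k4 _ (by omega) (by omega) }
      obtain ⟨n, d, a, b, P⟩ := L.place (isKnot_mir hk) (fun h => hn (hasKink_mir h))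
        (sep_of_sB (isKnot_mir hk) (planar_mir hp) (by rw [sB_mir, h1]))
      exact exists_slide_of_place_mir P

/-- Every face has a left or right corner. -/
theorem exists_side [Nonempty C] (φ : Faces e) : ∃ p, face e p = φ ∧ IsSide e p := by
  classical
  by_contra hc
  push Not at hc
  have hW : ∀ c, fW e c ≠ φ := by
    intro c h
    refine hc (e.symm (c, true), true) ?_ ?_
    · change fL e (e.symm (c, true)) = φ
      rw [fL_symm_true, h]
    · simp [IsSide, arr]
  have hE : ∀ c, fE e c ≠ φ := by
    intro c h
    refine hc (e (c, true), false) ?_ ?_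
    · change fR e (e.symm (e (c, true))) = φ
      rw [Equiv.symm_apply_apply, fR_true, h]
    · simp [IsSide, arr]
  let f : Faces e → ZMod 2 := fun ψ => if ψ = φ then 1 else 0
  have fW0 : ∀ c, f (fW e c) = 0 := fun c => if_neg (hW c)
  have fE0 : ∀ c, f (fE e c) = 0 := fun c => if_neg (hE c)
  have hf : ∀ c, f (fW e c) = f (fE e c) := fun c => by rw [fW0, fE0]
  have hsum := sum_sides h1 f hf
  obtain ⟨c₀⟩ := ‹Nonempty C›
  have ht : f (fL e (c₀, true)) + f (fR e (c₀, true)) = 1 := by
    by_contra h
    have h0 : f (fL e (c₀, true)) + f (fR e (c₀, true)) = 0 := by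
      revert h
      generalize f (fL e (c₀, true)) + f (fR e (c₀, true)) = t
      revert t
      decide
    have h2 : ∀ x, f (fL e x) = f (fR e x) := by
      intro x
      have h3 := hsum x (c₀, true)
      rw [h0] at h3
      exact CharTwo.add_eq_zero.1 h3
    have h3 := const_of_sides hk f h2 φ (fW e c₀)
    rw [fW0] at h3
    simp [f] at h3
  have hf1 : ∀ ψ, f ψ = 1 → ψ = φ := by
    intro ψ h
    by_contra h2
    simp [f, h2] at h
  have hN : ∀ c, fN e c = φ := by
    intro c
    apply hf1
    have h3 := hsum (c, true) (c₀, true)
    rw [ht, fL_true, fR_true, fE0, add_zero] at h3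
    exact h3
  have hSo : ∀ c, fS e c = φ := by
    intro c
    apply hf1
    have h3 := hsum (e.symm (c, true)) (c₀, true)
    rw [ht, fL_symm_true, fR_symm_true, fW0, zero_add] at h3
    exact h3
  have hnon : ∀ p, ¬ IsSide e p → face e p = φ := by
    intro p hp
    rw [← face_step, step_of_not_isSide hp]
    rcases p with ⟨z, _ | _⟩
    · exact hN _
    · exact hSo _
  have : Fintype (Faces e) := Fintype.ofFinite _
  -- count the left and right corners
  have hcount : (Finset.univ.filter (fun p => IsSide e p)).card = 2 * Fintype.card C := by
    have h3 : (Finset.univ.filter (fun p => IsSide e p)).card =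
        (Finset.univ : Finset (C × Bool)).card := by
      apply Finset.card_bij' (fun p _ => ((arr e p).1, p.2))
        (fun q _ => ((pw e q.2).symm (q.1, true), q.2))
      · intro p _; simp
      · intro q _
        simp [IsSide, arr]
      · intro p hp'
        simp only [Finset.mem_filter, Finset.mem_univ, true_and] at hp'
        refine Prod.ext ?_ rfl
        simp only
        rw [Equiv.symm_apply_eq]
        exact (arr_of_isSide hp').symm
      · intro q _
        simp [arr]
    rw [h3, Finset.card_univ, Fintype.card_prod, Fintype.card_bool, mul_comm]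
  have hfib := Finset.card_eq_sum_card_fiberwise (f := face e)
    (s := Finset.univ.filter (fun p => IsSide e p)) (t := (Finset.univ : Finset (Faces e)))
    (fun _ _ => Finset.mem_coe.2 (Finset.mem_univ _))
  have hge : ∀ ψ ∈ (Finset.univ : Finset (Faces e)).erase φ,
      2 ≤ ((Finset.univ.filter (fun p => IsSide e p)).filter (fun p => face e p = ψ)).card := by
    intro ψ hψ
    rw [Finset.mem_erase] at hψ
    obtain ⟨p, hp'⟩ := face_surj e ψ
    have s1 : IsSide e p := by
      by_contra h
      exact hψ.1 (by rw [← hp', hnon p h])
    have f2 : face e (step e p) = ψ := by rw [face_step, hp']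
    have s2 : IsSide e (step e p) := by
      by_contra h
      exact hψ.1 (by rw [← f2, hnon _ h])
    have hsub : ({p, step e p} : Finset _) ⊆
        (Finset.univ.filter (fun p => IsSide e p)).filter (fun p => face e p = ψ) := by
      intro q hq
      simp only [Finset.mem_insert, Finset.mem_singleton] at hq
      simp only [Finset.mem_filter, Finset.mem_univ, true_and]
      rcases hq with rfl | rfl
      · exact ⟨s1, hp'⟩
      · exact ⟨s2, f2⟩
    have h3 := Finset.card_le_card hsub
    rwa [Finset.card_pair (step_ne_of_not_hasKink hn p).symm] at h3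
  have hF : Fintype.card (Faces e) = Fintype.card C + 2 := by
    rw [← Nat.card_eq_fintype_card, ← Nat.card_eq_fintype_card]
    exact hp
  have h3 : (Fintype.card C + 1) * 2 ≤ 2 * Fintype.card C := by
    rw [← hcount, hfib]
    calc (Fintype.card C + 1) * 2
        = ∑ ψ ∈ (Finset.univ : Finset (Faces e)).erase φ, 2 := by
          rw [Finset.sum_const, Finset.card_erase_of_mem (Finset.mem_univ _), Finset.card_univ, hF]
          simp
      _ ≤ ∑ ψ ∈ (Finset.univ : Finset (Faces e)).erase φ,
          ((Finset.univ.filter (fun p => IsSide e p)).filter (fun p => face e p = ψ)).card :=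
          Finset.sum_le_sum hge
      _ ≤ _ := Finset.sum_le_sum_of_subset (Finset.erase_subset _ _)
  omega

/-- A planar diagram of a knot without kinks whose all-`B` state has one circle, and which has no
place for a slide, has at least twelve end crossings of antiparallel twist regions. -/
theorem twelve_le_twistEnds [Nonempty C] (hS : ¬ ∃ e', Slide e e') : 12 ≤ twistEnds e := by
  classical
  have : Fintype (Faces e) := Fintype.ofFinite _
  have hF : Fintype.card (Faces e) = Fintype.card C + 2 := by
    rw [← Nat.card_eq_fintype_card, ← Nat.card_eq_fintype_card]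
    exact hp
  have h2 := sum_val e
  have h3 : ∑ ψ : Faces e, ∑ q ∈ Finset.univ.filter (fun q => face e q = ψ),
      val e (arr e q) q.2 = ∑ q, val e (arr e q) q.2 :=
    Finset.sum_fiberwise Finset.univ (face e) (fun q => val e (arr e q) q.2)
  have h4 : ∀ ψ ∈ (Finset.univ : Finset (Faces e)), 6 ≤
      ∑ q ∈ Finset.univ.filter (fun q => face e q = ψ), val e (arr e q) q.2 := by
    intro ψ _
    obtain ⟨p, hp', hside⟩ := exists_side hk hp h1 hn ψ
    subst hp'
    exact face_sum_side hk hp h1 hn hS p hside
  have h5 := Finset.sum_le_sum h4
  rw [h3, h2, Finset.sum_const, Finset.card_univ, hF, smul_eq_mul] at h5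
  omega

end Main

/-- The all-`B` state of a nonempty diagram has a circle. -/
theorem one_le_sB [Finite C] [Nonempty C] (e : Perm (C × Bool)) : 1 ≤ sB e := by
  obtain ⟨c⟩ := ‹Nonempty C›
  have : Nonempty (Quot (BRel e)) := ⟨Quot.mk _ (c, true)⟩
  exact Nat.card_pos

theorem turaev_lt_of_two_le {e : Perm (C × Bool)} (h : 2 ≤ sB e) :
    turaevGenus e < seifertGenus e := by
  unfold turaevGenus seifertGenus
  have : (2 : ℚ) ≤ sB e := by exact_mod_cast h
  linarith

theorem main [Finite C] [Nonempty C] (e : Perm (C × Bool)) (hk : IsKnot e) (hp : Planar e)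
    (h : (∃ e', Slide e e') ∨ (¬ HasKink e ∧ twistEnds e < 12)) :
    ∃ e', (e' = e ∨ Slide e e') ∧ IsKnot e' ∧ turaevGenus e' < seifertGenus e' := by
  have : Fintype C := Fintype.ofFinite C
  by_cases h2 : 2 ≤ sB e
  · exact ⟨e, Or.inl rfl, hk, turaev_lt_of_two_le h2⟩
  · have h1 : sB e = 1 := by
      have := one_le_sB e
      omega
    have h3 : ∃ e', Slide e e' := by
      rcases h with h | ⟨hn, ht⟩
      · exact h
      · by_contra hS
        have := twelve_le_twistEnds hk hp h1 hn hS
        omega
    obtain ⟨e', he⟩ := h3
    exact ⟨e', Or.inr he, isKnot_of_slide hk he,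
      turaev_lt_of_two_le (two_le_of_slide hk hp h1 he)⟩

end Pool.Agent.Helper71.TG
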