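import Pool.Agent.Helper71.TG.Leaf

/-!
# The renaming exists
-/

namespace Pool.Agent.Helper71.TG

open Equiv

variable {C : Type} {e : Perm (C × Bool)}

/-- The passages of the first (`y = true`) and of the second (`y = false`) strand. -/
def blk (n : ℕ) (d : ℕ → C) (a b : C) (p : Fin (2 * n + 2) × Bool) : C × Bool :=
  if (p.1 : ℕ) ≤ 2 * n then (d p.1, if p.2 then ev p.1 else !ev p.1)
  else (if p.2 then a else b, true)

theorem Place.blk_injective {n : ℕ} {d : ℕ → C} {a b : C} (P : Place e n d a b) :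
    Function.Injective (blk n d a b) := by
  rintro ⟨i, x⟩ ⟨j, y⟩ h
  unfold blk at h
  by_cases hi : (i : ℕ) ≤ 2 * n <;> by_cases hj : (j : ℕ) ≤ 2 * n
  · simp only [hi, hj, if_true, Prod.mk.injEq] at h
    have h1 := P.inj _ hi _ hj h.1
    have h2 : i = j := Fin.ext h1
    subst h2
    have h3 := h.2
    revert h3
    cases x <;> cases y <;> cases ev (i : ℕ) <;> simp
  · simp only [hi, hj, if_true, if_false, Prod.mk.injEq] at h
    cases y
    · exact absurd h.1 (P.ne_b _ hi)
    · exact absurd h.1 (P.ne_a _ hi)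
  · simp only [hi, hj, if_true, if_false, Prod.mk.injEq] at h
    cases x
    · exact absurd h.1.symm (P.ne_b _ hj)
    · exact absurd h.1.symm (P.ne_a _ hj)
  · simp only [hi, hj, if_false, Prod.mk.injEq] at h
    have h2 : i = j := Fin.ext (by omega)
    subst h2
    have h3 := h.1
    cases x <;> cases y
    · rfl
    · exact absurd h3.symm P.ab
    · exact absurd h3 P.ab
    · rfl

/-- The two cyclic shifts. -/
def shift (N : ℕ) : Perm (Fin N × Bool) where
  toFun p := (if p.2 then (finRotate N).symm p.1 else finRotate N p.1, p.2)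
  invFun p := (if p.2 then finRotate N p.1 else (finRotate N).symm p.1, p.2)
  left_inv := by
    rintro ⟨i, x⟩
    cases x <;> simp only [if_true, if_false, Bool.false_eq_true, Equiv.symm_apply_apply,
      Equiv.apply_symm_apply]
  right_inv := by
    rintro ⟨i, x⟩
    cases x <;> simp only [if_true, if_false, Bool.false_eq_true, Equiv.symm_apply_apply,
      Equiv.apply_symm_apply]

theorem Place.exists_renames {n : ℕ} {d : ℕ → C} {a b : C} (P : Place e n d a b) :
    ∃ σ, Renames n d a b σ := by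
  classical
  let f : Fin (2 * n + 2) × Bool ↪ C × Bool := ⟨blk n d a b, P.blk_injective⟩
  let σ₁ : Perm (C × Bool) := (shift (2 * n + 2)).viaFintypeEmbedding f
  have h1 : ∀ p, σ₁ (blk n d a b p) = blk n d a b (shift (2 * n + 2) p) := fun p =>
    Equiv.Perm.viaFintypeEmbedding_apply_image _ f p
  have h2 : ∀ z, z ∉ Set.range (blk n d a b) → σ₁ z = z := fun z hz =>
    Equiv.Perm.viaFintypeEmbedding_apply_notMem_range _ f hz
  have b1 : ∀ i, (hi : i ≤ 2 * n) → blk n d a b (⟨i, by omega⟩, true) = (d i, ev i) := by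
    intro i hi
    simp [blk, hi]
  have b2 : ∀ i, (hi : i ≤ 2 * n) → blk n d a b (⟨i, by omega⟩, false) = (d i, !ev i) := by
    intro i hi
    simp [blk, hi]
  have b3 : blk n d a b (⟨2 * n + 1, by omega⟩, true) = (a, true) := by
    simp [blk]
  have b4 : blk n d a b (⟨2 * n + 1, by omega⟩, false) = (b, true) := by
    simp [blk]
  have rot : ∀ i, (hi : i < 2 * n + 1) → finRotate (2 * n + 2) ⟨i, by omega⟩ =
      ⟨i + 1, by omega⟩ := by
    intro i hi
    exact finRotate_of_lt hi
  have rot' : finRotate (2 * n + 2) ⟨2 * n + 1, by omega⟩ = ⟨0, by omega⟩ :=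
    finRotate_last'
  have sh1 : ∀ i, (hi : i < 2 * n + 1) → shift (2 * n + 2) (⟨i + 1, by omega⟩, true) =
      (⟨i, by omega⟩, true) := by
    intro i hi
    simp only [shift, Equiv.coe_fn_mk, if_true]
    rw [← rot i hi, Equiv.symm_apply_apply]
  have sh2 : shift (2 * n + 2) (⟨0, by omega⟩, true) = (⟨2 * n + 1, by omega⟩, true) := by
    simp only [shift, Equiv.coe_fn_mk, if_true]
    rw [← rot', Equiv.symm_apply_apply]
  have sh3 : ∀ i, (hi : i < 2 * n + 1) → shift (2 * n + 2) (⟨i, by omega⟩, false) =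
      (⟨i + 1, by omega⟩, false) := by
    intro i hi
    simp only [shift, Equiv.coe_fn_mk, Bool.false_eq_true, if_false]
    rw [rot i hi]
  have sh4 : shift (2 * n + 2) (⟨2 * n + 1, by omega⟩, false) = (⟨0, by omega⟩, false) := by
    simp only [shift, Equiv.coe_fn_mk, Bool.false_eq_true, if_false]
    rw [rot']
  have nr : ∀ z : C × Bool, (z.1 = a → z.2 = false) → (z.1 = b → z.2 = false) →
      (∀ i ≤ 2 * n, z.1 ≠ d i) → z ∉ Set.range (blk n d a b) := by
    rintro z ha hb hd ⟨⟨i, x⟩, hp⟩
    unfold blk at hp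
    by_cases hi : (i : ℕ) ≤ 2 * n
    · simp only [hi, if_true] at hp
      exact hd _ hi (by rw [← hp])
    · simp only [hi, if_false] at hp
      cases x
      · have := hb (by rw [← hp]; rfl)
        rw [← hp] at this
        simp at this
      · have := ha (by rw [← hp]; rfl)
        rw [← hp] at this
        simp at this
  have sw1 : ∀ z : C × Bool, z.2 = true → swap (a, false) (b, false) z = z := by
    intro z hz
    apply Equiv.swap_apply_of_ne_of_ne
    · rintro rfl; simp at hz
    · rintro rfl; simp at hz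
  have sw2 : ∀ i ≤ 2 * n, ∀ x, swap (a, false) (b, false) (d i, x) = (d i, x) := by
    intro i hi x
    apply Equiv.swap_apply_of_ne_of_ne
    · intro h; exact P.ne_a i hi (congrArg Prod.fst h)
    · intro h; exact P.ne_b i hi (congrArg Prod.fst h)
  refine ⟨σ₁ * swap (a, false) (b, false), ?_⟩
  constructor
  · rw [Equiv.Perm.mul_apply, sw1 _ rfl]
    have := b1 0 (by omega)
    rw [ev_zero] at this
    rw [← this, h1, sh2, b3]
  · intro i hi
    rw [Equiv.Perm.mul_apply, sw2 _ (by omega), ← b1 (i + 1) (by omega), h1,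
      sh1 i (by omega), b1 i (by omega)]
  · rw [Equiv.Perm.mul_apply, sw1 _ rfl, ← b3, h1, sh1 (2 * n) (by omega), b1 _ le_rfl,
      ev_two_mul]
  · rw [Equiv.Perm.mul_apply, sw2 _ le_rfl]
    have := b2 (2 * n) le_rfl
    rw [ev_two_mul, Bool.not_true] at this
    rw [← this, h1, sh3 _ (by omega), b4]
  · intro i hi
    rw [Equiv.Perm.mul_apply, sw2 _ (by omega), ← b2 i (by omega), h1,
      sh3 i (by omega), b2 (i + 1) (by omega)]
  · rw [Equiv.Perm.mul_apply, sw1 _ rfl, ← b4, h1, sh4, b2 0 (by omega)]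
    rfl
  · rw [Equiv.Perm.mul_apply, Equiv.swap_apply_left]
    exact h2 _ (nr _ (fun _ => rfl) (fun _ => rfl) (fun i hi => (P.ne_b i hi).symm))
  · rw [Equiv.Perm.mul_apply, Equiv.swap_apply_right]
    exact h2 _ (nr _ (fun _ => rfl) (fun _ => rfl) (fun i hi => (P.ne_a i hi).symm))
  · intro z ha hb hd
    rw [Equiv.Perm.mul_apply, Equiv.swap_apply_of_ne_of_ne (by rintro rfl; exact ha rfl)
      (by rintro rfl; exact hb rfl)]
    exact h2 _ (nr _ (fun h => absurd h ha) (fun h => absurd h hb) hd)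

theorem exists_slideUnder {n : ℕ} {d : ℕ → C} {a b : C} (P : Place e n d a b) :
    ∃ e', SlideUnder e e' := by
  obtain ⟨σ, R⟩ := P.exists_renames
  exact ⟨σ * e * σ⁻¹, n, d, a, b, σ, P, R, rfl⟩

end Pool.Agent.Helper71.TG
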