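import Pool.Agent.Helper71.TG.Under

/-!
# Symmetries

Reversing the orientation (`e⁻¹`) and looking at the diagram from the other side (`mir e`) change
neither the number of faces nor the number of circles of the all-`B` state.
-/

namespace Pool.Agent.Helper71.TG

open Equiv

variable {C : Type}

theorem classes_congr {α β : Type} {r : α → α → Prop} {s : β → β → Prop} (φ : α ≃ β)
    (h1 : ∀ x y, r x y → s (φ x) (φ y) ∨ s (φ y) (φ x))
    (h2 : ∀ x y, s x y → r (φ.symm x) (φ.symm y) ∨ r (φ.symm y) (φ.symm x)) :
    classes r = classes s := by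
  refine Nat.card_congr
    { toFun := Quot.lift (fun x => Quot.mk s (φ x)) ?_
      invFun := Quot.lift (fun x => Quot.mk r (φ.symm x)) ?_
      left_inv := ?_
      right_inv := ?_ }
  · intro x y h
    rcases h1 x y h with h | h
    · exact Quot.sound h
    · exact (Quot.sound h).symm
  · intro x y h
    rcases h2 x y h with h | h
    · exact Quot.sound h
    · exact (Quot.sound h).symm
  · rintro ⟨x⟩
    simp
  · rintro ⟨x⟩
    simp

theorem sB_inv (e : Perm (C × Bool)) : sB e⁻¹ = sB e := by
  refine classes_congr (e⁻¹ : Perm (C × Bool)) ?_ ?_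
  · rintro x y (rfl | h)
    · left; right
      simp
    · left; left
      exact h.symm
  · rintro x y (rfl | h)
    · left; right
      change sw (e⁻¹ (e x)) = e⁻¹ (e (sw x))
      simp
    · left; left
      exact h.symm

theorem sB_mir (e : Perm (C × Bool)) : sB (mir e) = sB e := by
  have hs : ∀ z : C × Bool, sw (sw z) = z := sw_sw
  refine classes_congr (sw : Perm (C × Bool)) ?_ ?_
  · rintro x y (rfl | h)
    · left; left; rfl
    · left; right
      have h2 : sw (sw (e (sw x))) = sw (e (sw y)) := h
      rw [hs] at h2
      rw [h2, hs]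
  · rintro x y (rfl | h)
    · left; left; rfl
    · left; right
      change sw (sw (e (sw (sw x)))) = sw (e (sw (sw y)))
      rw [hs, hs, hs, ← h, hs]

theorem isKnot_inv {e : Perm (C × Bool)} (h : IsKnot e) : IsKnot e⁻¹ := fun x y =>
  Equiv.Perm.sameCycle_inv.2 (h x y)

theorem isKnot_conj {e σ : Perm (C × Bool)} (h : IsKnot e) : IsKnot (σ * e * σ⁻¹) := fun x y =>
  Equiv.Perm.sameCycle_conj.2 (h _ _)

theorem sw_inv : (sw : Perm (C × Bool))⁻¹ = sw := rfl

theorem isKnot_mir {e : Perm (C × Bool)} (h : IsKnot e) : IsKnot (mir e) := by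
  have : mir e = sw * e * sw⁻¹ := by rw [sw_inv]; rfl
  rw [this]
  exact isKnot_conj h

theorem mir_mir (e : Perm (C × Bool)) : mir (mir e) = e := by
  ext z : 1
  simp [mir]

theorem mir_inv (e : Perm (C × Bool)) : (mir e)⁻¹ = mir e⁻¹ := by
  simp [mir, mul_assoc, sw_inv]

theorem symm_inv_apply (e : Perm (C × Bool)) (z : C × Bool) : (Equiv.symm e⁻¹) z = e z := rfl

theorem planar_inv {e : Perm (C × Bool)} (h : Planar e) : Planar e⁻¹ := by
  unfold Planar at *
  rw [← h]
  refine classes_congr
    { toFun := fun z => (e⁻¹ z.1, !z.2)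
      invFun := fun z => (e z.1, !z.2)
      left_inv := fun z => by simp
      right_inv := fun z => by simp } ?_ ?_
  · rintro x y h
    cases h with
    | front c => left; exact Corner.back c
    | left c => right; simpa [symm_inv_apply] using Corner.right (e := e) c
    | back c => left; simpa [symm_inv_apply] using Corner.front (e := e) c
    | right c => right; simpa [symm_inv_apply] using Corner.left (e := e) c
  · rintro x y h
    cases h with
    | front c => left; exact Corner.back (e := e⁻¹) c
    | left c => right; simpa [symm_inv_apply] using Corner.right (e := e⁻¹) c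
    | back c => left; simpa [symm_inv_apply] using Corner.front (e := e⁻¹) c
    | right c => right; simpa [symm_inv_apply] using Corner.left (e := e⁻¹) c

theorem mir_symm_apply (e : Perm (C × Bool)) (z : C × Bool) :
    (mir e).symm z = sw (e.symm (sw z)) := rfl

theorem planar_mir {e : Perm (C × Bool)} (h : Planar e) : Planar (mir e) := by
  unfold Planar at *
  rw [← h]
  refine classes_congr
    { toFun := fun z => (sw z.1, !z.2)
      invFun := fun z => (sw z.1, !z.2)
      left_inv := fun z => by simp
      right_inv := fun z => by simp } ?_ ?_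
  · rintro x y h
    cases h with
    | front c => right; exact Corner.front c
    | left c => left; simpa [mir_symm_apply] using Corner.right (e := e) c
    | back c => right; simpa [mir_symm_apply] using Corner.back (e := e) c
    | right c => left; simpa [mir_symm_apply] using Corner.left (e := e) c
  · rintro x y h
    cases h with
    | front c => right; exact Corner.front c
    | left c => left; simpa [mir_symm_apply] using Corner.right (e := mir e) c
    | back c => right; simpa [mir_symm_apply] using Corner.back (e := mir e) c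
    | right c => left; simpa [mir_symm_apply] using Corner.left (e := mir e) c

/-- A slide leads from a planar diagram of a knot whose all-`B` state has one circle to a diagram
whose all-`B` state has at least two circles. -/
theorem two_le_of_slide [Finite C] {e e' : Perm (C × Bool)} (hk : IsKnot e) (hp : Planar e)
    (h1 : sB e = 1) (h : Slide e e') : 2 ≤ sB e' := by
  rcases h with ⟨n, d, a, b, σ, P, R, he⟩ | ⟨n, d, a, b, σ, P, R, he⟩ | ⟨n, d, a, b, σ, P, R, he⟩ |
    ⟨n, d, a, b, σ, P, R, he⟩
  · rw [he]
    exact two_le_sB_slide hk hp h1 P R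
  · rw [← sB_inv, he]
    exact two_le_sB_slide (isKnot_inv hk) (planar_inv hp) (by rw [sB_inv, h1]) P R
  · rw [← sB_mir, he]
    exact two_le_sB_slide (isKnot_mir hk) (planar_mir hp) (by rw [sB_mir, h1]) P R
  · rw [← sB_mir, ← sB_inv, he]
    exact two_le_sB_slide (isKnot_inv (isKnot_mir hk)) (planar_inv (planar_mir hp))
      (by rw [sB_inv, sB_mir, h1]) P R

/-- A slide keeps the property of being a knot. -/
theorem isKnot_of_slide {e e' : Perm (C × Bool)} (hk : IsKnot e) (h : Slide e e') :
    IsKnot e' := by
  rcases h with ⟨n, d, a, b, σ, P, R, he⟩ | ⟨n, d, a, b, σ, P, R, he⟩ | ⟨n, d, a, b, σ, P, R, he⟩ |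
    ⟨n, d, a, b, σ, P, R, he⟩
  · rw [he]
    exact isKnot_conj hk
  · have := isKnot_inv (he ▸ isKnot_conj (σ := σ) (isKnot_inv hk) : IsKnot e'⁻¹)
    rwa [inv_inv] at this
  · have := isKnot_mir (he ▸ isKnot_conj (σ := σ) (isKnot_mir hk) : IsKnot (mir e'))
    rwa [mir_mir] at this
  · have := isKnot_mir (isKnot_inv
      (he ▸ isKnot_conj (σ := σ) (isKnot_inv (isKnot_mir hk)) : IsKnot (mir e')⁻¹))
    rwa [inv_inv, mir_mir] at this

end Pool.Agent.Helper71.TG
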