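import Pool.Agent.Helper71.TG.Faces

/-!
# Sliding a strand under a twist region

If the all-`B` state of a planar diagram of a knot has one circle, then after a slide it has at
least two.
-/

namespace Pool.Agent.Helper71.TG

open Equiv

variable {C : Type}

@[simp] theorem ev_zero : ev 0 = true := rfl

@[simp] theorem ev_two_mul (n : ℕ) : ev (2 * n) = true := by simp [ev]

theorem ev_succ (i : ℕ) : ev (i + 1) = !ev i := by
  unfold ev
  rcases Nat.mod_two_eq_zero_or_one i with h | h
  · have : (i + 1) % 2 = 1 := by omega
    simp [h, this]
  · have : (i + 1) % 2 = 0 := by omega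
    simp [h, this]

variable {e : Perm (C × Bool)} {n : ℕ} {d : ℕ → C} {a b : C} {σ : Perm (C × Bool)}

theorem Place.image (P : Place e n d a b) (i : ℕ) (hi : i ≤ 2 * n) (x : Bool) :
    e (d i, x) = (a, true) ∨ e (d i, x) = (b, true) ∨
      (∃ j, 1 ≤ j ∧ j ≤ 2 * n ∧ e (d i, x) = (d j, ev j)) ∨
      (∃ j, j < 2 * n ∧ e (d i, x) = (d j, !ev j)) := by
  by_cases hx : x = ev i
  · subst hx
    rcases hi.lt_or_eq with h | rfl
    · exact Or.inr (Or.inr (Or.inl ⟨i + 1, by omega, by omega, P.fwd i h⟩))
    · left
      rw [ev_two_mul]
      exact P.exit₁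
  · have hx' : x = !ev i := by
      revert hx
      cases x <;> cases ev i <;> simp
    subst hx'
    rcases Nat.eq_zero_or_pos i with rfl | h
    · right; left
      exact P.exit₂
    · obtain ⟨j, rfl⟩ : ∃ j, i = j + 1 := ⟨i - 1, by omega⟩
      exact Or.inr (Or.inr (Or.inr ⟨j, by omega, P.bwd j (by omega)⟩))

/-- The values which the renaming has at the passages before the renamed ones. -/
theorem two_le_sB_slide [Finite C] (hk : IsKnot e) (hp : Planar e) (h1 : sB e = 1)
    (P : Place e n d a b) (R : Renames n d a b σ) : 2 ≤ sB (σ * e * σ⁻¹) := by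
  classical
  have : Nonempty C := ⟨a⟩
  obtain ⟨g, hg1, hg2⟩ := exists_sep hk hp h1
  obtain ⟨f, hf1, hf2⟩ := exists_cut hk hp h1 (d 0)
  -- the values along the twist region
  have path : ∀ i ≤ 2 * n, g (fE e (d i)) = g (fE e (d 0)) ∧ f (fE e (d i)) = f (fE e (d 0)) := by
    intro i
    induction i with
    | zero => intro _; exact ⟨rfl, rfl⟩
    | succ i ih =>
      intro hi
      obtain ⟨h1, h2⟩ := ih (by omega)
      have h3 := P.fwd i (by omega)
      have hne : d (i + 1) ≠ d 0 := fun h => by
        have := P.inj _ hi _ (by omega) h
        omega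
      rcases hb : ev i with _ | _
      · -- odd
        rw [hb, ev_succ, hb] at h3
        simp only [Bool.not_false] at h3
        have h4 : fW e (d (i + 1)) = fW e (d i) := by
          rw [← fL_symm_true, ← h3, Equiv.symm_apply_apply, fL_false]
        have hne2 : d i ≠ d 0 := fun h => by
          have := P.inj _ (by omega) _ (by omega) h
          subst this
          simp at hb
        refine ⟨?_, ?_⟩
        · rw [← hg1, h4, hg1, h1]
        · rw [← hf1 _ hne, h4, hf1 _ hne2, h2]
      · rw [hb, ev_succ, hb] at h3
        simp only [Bool.not_true] at h3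
        have h4 : fE e (d (i + 1)) = fE e (d i) := by
          rw [← fR_symm_false, ← h3, Equiv.symm_apply_apply, fR_true]
        rw [h4]
        exact ⟨h1, h2⟩
  obtain ⟨pg, pf⟩ := path (2 * n) le_rfl
  set X : Faces e → Prop := fun φ => g φ = g (fE e (d 0)) ∧ f φ = f (fE e (d 0)) with hX
  set τ : Prop := X (fN e a) with hτ
  set χ : C × Bool → Prop := fun y => X (fL e y) ∨ X (fR e y) with hχ
  have sa : e.symm (a, true) = (d (2 * n), true) := by rw [← P.exit₁, Equiv.symm_apply_apply]
  have sb : e.symm (b, true) = (d 0, false) := by rw [← P.exit₂, Equiv.symm_apply_apply]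
  have st : e.symm (b, false) = (a, false) := by rw [← P.third, Equiv.symm_apply_apply]
  -- the faces around the third strand
  have eSa : fS e a = fE e (d (2 * n)) := by rw [← fR_symm_true, sa, fR_true]
  have eWa : fW e a = fN e (d (2 * n)) := by rw [← fL_symm_true, sa, fL_true]
  have eWb : fW e b = fW e (d 0) := by rw [← fL_symm_true, sb, fL_false]
  have eEb : fE e b = fN e a := by rw [← fR_symm_false, st, fR_false]
  have gWa : g (fW e a) ≠ g (fE e (d 0)) := by
    rw [eWa, ← pg, ← fL_true, ← fR_true]
    exact hg2 _
  have gEa : g (fE e a) ≠ g (fE e (d 0)) := by rw [← hg1]; exact gWa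
  have gWb : g (fW e b) = g (fE e (d 0)) := by rw [eWb, hg1]
  have gNb : g (fN e b) ≠ g (fE e (d 0)) := by
    rw [← gWb, ← fL_false, ← fR_false]
    exact (hg2 _).symm
  have gSd : g (fS e (d 0)) ≠ g (fE e (d 0)) := by
    rw [← hg1, ← fL_symm_true, ← fR_symm_true]
    exact (hg2 _).symm
  have XEa : ¬ X (fE e a) := fun h => gEa h.1
  have XWb : ¬ X (fW e b) := fun h => hf2 (by rw [← h.2, eWb])
  have XWd : ¬ X (fW e (d 0)) := fun h => hf2 h.2
  have XNb : ¬ X (fN e b) := fun h => gNb h.1
  have XSd : ¬ X (fS e (d 0)) := fun h => gSd h.1
  have XEd : X (fE e (d (2 * n))) := ⟨pg, pf⟩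
  have χa : χ (a, true) ↔ τ := by
    simp only [hχ, fL_true, fR_true, hτ]
    constructor
    · rintro (h | h)
      · exact h
      · exact absurd h XEa
    · exact Or.inl
  have χb : χ (b, true) ↔ τ := by
    simp only [hχ, fL_true, fR_true, eEb, hτ]
    constructor
    · rintro (h | h)
      · exact absurd h XNb
      · exact h
    · exact Or.inr
  have χb' : ¬ χ (b, false) := by
    simp only [hχ, fL_false, fR_false]
    rintro (h | h)
    · exact XWb h
    · exact XNb h
  have χd : ¬ χ (e.symm (d 0, true)) := by
    simp only [hχ, fL_symm_true, fR_symm_true]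
    rintro (h | h)
    · exact XWd h
    · exact XSd h
  have χd' : χ (e.symm (d (2 * n), false)) := by
    simp only [hχ, fR_symm_false]
    exact Or.inr XEd
  have χa' : χ (e.symm (a, false)) := by
    simp only [hχ, fL_symm_false, eSa]
    exact Or.inl XEd
  -- the labels of the new arcs
  set lam : C × Bool → Prop := fun y =>
    (y.1 ≠ a ∧ y.1 ≠ b ∧ (∀ i ≤ 2 * n, y.1 ≠ d i) ∧ χ y) ∨
      (∃ i ≤ 2 * n, y.1 = d i ∧ ev i = true ∧ τ) with hlam
  have lam_a : ∀ x, ¬ lam (a, x) := by
    rintro x (h | ⟨i, hi, h, -⟩)
    · exact h.1 rfl
    · exact P.ne_a i hi h.symm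
  have lam_b : ∀ x, ¬ lam (b, x) := by
    rintro x (h | ⟨i, hi, h, -⟩)
    · exact h.2.1 rfl
    · exact P.ne_b i hi h.symm
  have lam_d : ∀ i ≤ 2 * n, ∀ x, (lam (d i, x) ↔ ev i = true ∧ τ) := by
    intro i hi x
    constructor
    · rintro (h | ⟨j, hj, h, h2⟩)
      · exact absurd rfl (h.2.2.1 i hi)
      · rwa [P.inj i hi j hj h]
    · intro h
      exact Or.inr ⟨i, hi, rfl, h⟩
  have lam_o : ∀ y : C × Bool, y.1 ≠ a → y.1 ≠ b → (∀ i ≤ 2 * n, y.1 ≠ d i) →
      (lam y ↔ χ y) := by
    intro y h1 h2 h3
    constructor
    · rintro (h | ⟨j, hj, h, -⟩)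
      · exact h.2.2.2
      · exact absurd h (h3 j hj)
    · intro h
      exact Or.inl ⟨h1, h2, h3, h⟩
  have key : ∀ y : C × Bool, y ≠ (a, false) → (∀ i ≤ 2 * n, y.1 ≠ d i) →
      (lam (σ y) ↔ χ y) := by
    intro y h2 h3
    by_cases hya : y.1 = a
    · have : y = (a, true) := by
        rcases y with ⟨c, _ | _⟩
        · simp only at hya
          exact absurd (by rw [hya]) h2
        · simp only at hya
          rw [hya]
      rw [this, R.first_last, lam_d _ le_rfl, χa]
      simp
    · by_cases hyb : y.1 = b
      · rcases y with ⟨c, _ | _⟩
        · simp only at hyb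
          rw [hyb, R.third_last]
          exact iff_of_false (lam_a _) χb'
        · simp only at hyb
          rw [hyb, R.second_last, lam_d 0 (by omega), χb]
          simp
      · rw [R.other y hya hyb h3, lam_o y hya hyb h3]
  have hsymm : ∀ z, (σ * e * σ⁻¹).symm z = σ (e.symm (σ.symm z)) := by
    intro z
    rfl
  refine two_le_sB (f := lam) ?_ ?_ (x := σ (e.symm (a, false))) (y := (a, true)) ?_ (lam_a _)
  · -- arcs leaving a crossing
    intro c
    by_cases hca : c = a
    · subst hca
      exact iff_of_false (lam_a _) (lam_a _)
    · by_cases hcb : c = b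
      · subst hcb
        exact iff_of_false (lam_b _) (lam_b _)
      · by_cases hcd : ∃ i ≤ 2 * n, c = d i
        · obtain ⟨i, hi, rfl⟩ := hcd
          rw [lam_d i hi, lam_d i hi]
        · push Not at hcd
          rw [lam_o (c, true) hca hcb hcd, lam_o (c, false) hca hcb hcd]
          have hc0 := hcd 0 (by omega)
          simp only [hχ, hX, fL_true, fR_true, fL_false, fR_false, hg1, hf1 c hc0]
          exact or_comm
  · -- arcs arriving at a crossing
    intro c
    rw [hsymm, hsymm]
    by_cases hca : c = a
    · subst hca
      have s1 : σ.symm (c, true) = (d 0, true) := by rw [← R.first_zero, Equiv.symm_apply_apply]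
      have s2 : σ.symm (c, false) = (b, false) := by rw [← R.third_last, Equiv.symm_apply_apply]
      rw [s1, s2, st, R.third_zero]
      refine iff_of_false ?_ (lam_b _)
      rw [key]
      · exact χd
      · intro h
        rw [Equiv.symm_apply_eq, P.third] at h
        exact P.ne_b 0 (by omega) (congrArg Prod.fst h)
      · intro i hi h
        have h4 : e (d i, (e.symm (d 0, true)).2) = (d 0, true) := by
          rw [← h]
          exact Equiv.apply_symm_apply _ _
        rcases P.image i hi _ with h5 | h5 | ⟨j, hj1, hj2, h5⟩ | ⟨j, hj1, h5⟩
        · rw [h4] at h5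
          exact P.ne_a 0 (by omega) (congrArg Prod.fst h5)
        · rw [h4] at h5
          exact P.ne_b 0 (by omega) (congrArg Prod.fst h5)
        · rw [h4] at h5
          have := P.inj 0 (by omega) j hj2 (congrArg Prod.fst h5)
          omega
        · rw [h4] at h5
          have := P.inj 0 (by omega) j (by omega) (congrArg Prod.fst h5)
          subst this
          simp at h5
    · by_cases hcb : c = b
      · subst hcb
        have s1 : σ.symm (c, true) = (d (2 * n), false) := by
          rw [← R.second_zero, Equiv.symm_apply_apply]
        have s2 : σ.symm (c, false) = (a, false) := by rw [← R.third_zero, Equiv.symm_apply_apply]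
        rw [s1, s2]
        refine iff_of_true ?_ ?_
        · rw [key]
          · exact χd'
          · intro h
            rw [Equiv.symm_apply_eq, P.third] at h
            exact P.ne_b (2 * n) le_rfl (congrArg Prod.fst h)
          · intro i hi h
            have h4 : e (d i, (e.symm (d (2 * n), false)).2) = (d (2 * n), false) := by
              rw [← h]
              exact Equiv.apply_symm_apply _ _
            rcases P.image i hi _ with h5 | h5 | ⟨j, hj1, hj2, h5⟩ | ⟨j, hj1, h5⟩
            · rw [h4] at h5
              exact P.ne_a _ le_rfl (congrArg Prod.fst h5)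
            · rw [h4] at h5
              exact P.ne_b _ le_rfl (congrArg Prod.fst h5)
            · rw [h4] at h5
              have := P.inj _ le_rfl j hj2 (congrArg Prod.fst h5)
              subst this
              simp at h5
            · rw [h4] at h5
              have := P.inj _ le_rfl j (by omega) (congrArg Prod.fst h5)
              omega
        · rw [key]
          · exact χa'
          · intro h
            rw [Equiv.symm_apply_eq, P.third] at h
            exact P.ab (congrArg Prod.fst h)
          · intro i hi h
            have h4 : e (d i, (e.symm (a, false)).2) = (a, false) := by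
              rw [← h]
              exact Equiv.apply_symm_apply _ _
            rcases P.image i hi _ with h5 | h5 | ⟨j, hj1, hj2, h5⟩ | ⟨j, hj1, h5⟩
            · rw [h4] at h5
              simp at h5
            · rw [h4] at h5
              simp at h5
            · rw [h4] at h5
              exact P.ne_a j hj2 (congrArg Prod.fst h5).symm
            · rw [h4] at h5
              exact P.ne_a j (by omega) (congrArg Prod.fst h5).symm
      · by_cases hcd : ∃ i ≤ 2 * n, c = d i
        · obtain ⟨i, hi, rfl⟩ := hcd
          have t1 : σ (e.symm (σ.symm (d i, ev i))) = σ (d i, ev i) := by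
            congr 1
            rcases hi.lt_or_eq with h | rfl
            · have : σ.symm (d i, ev i) = (d (i + 1), ev (i + 1)) := by
                rw [← R.first_succ i h, Equiv.symm_apply_apply]
              rw [this, ← P.fwd i h, Equiv.symm_apply_apply]
            · have : σ.symm (d (2 * n), ev (2 * n)) = (a, true) := by
                rw [ev_two_mul, ← R.first_last, Equiv.symm_apply_apply]
              rw [this, sa, ev_two_mul]
          have t2 : σ (e.symm (σ.symm (d i, !ev i))) = σ (d i, !ev i) := by
            congr 1
            rcases Nat.eq_zero_or_pos i with rfl | h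
            · have : σ.symm (d 0, !ev 0) = (b, true) := by
                rw [ev_zero, Bool.not_true, ← R.second_last, Equiv.symm_apply_apply]
              rw [this, sb]
              rfl
            · obtain ⟨j, rfl⟩ : ∃ j, i = j + 1 := ⟨i - 1, by omega⟩
              have : σ.symm (d (j + 1), !ev (j + 1)) = (d j, !ev j) := by
                rw [← R.second_succ j (by omega), Equiv.symm_apply_apply]
              rw [this, ← P.bwd j (by omega), Equiv.symm_apply_apply]
          have u1 : lam (σ (d i, ev i)) ↔ (i ≠ 0 ∧ ev i = false ∧ τ) := by
            rcases Nat.eq_zero_or_pos i with rfl | h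
            · rw [ev_zero, R.first_zero]
              exact iff_of_false (lam_a _) (fun h => h.1 rfl)
            · obtain ⟨j, rfl⟩ : ∃ j, i = j + 1 := ⟨i - 1, by omega⟩
              rw [R.first_succ j (by omega), lam_d j (by omega), ev_succ]
              cases ev j <;> simp
          have u2 : lam (σ (d i, !ev i)) ↔ (i ≠ 2 * n ∧ ev i = false ∧ τ) := by
            rcases hi.lt_or_eq with h | rfl
            · rw [R.second_succ i h, lam_d (i + 1) (by omega), ev_succ]
              have : i ≠ 2 * n := h.ne
              cases ev i <;> simp [this]
            · rw [ev_two_mul, Bool.not_true, R.second_zero]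
              exact iff_of_false (lam_b _) (fun h => h.1 rfl)
          have u3 : lam (σ (e.symm (σ.symm (d i, ev i)))) ↔
              lam (σ (e.symm (σ.symm (d i, !ev i)))) := by
            rw [t1, t2, u1, u2]
            constructor
            · rintro ⟨_, h2, h3⟩
              refine ⟨?_, h2, h3⟩
              rintro rfl
              simp at h2
            · rintro ⟨_, h2, h3⟩
              refine ⟨?_, h2, h3⟩
              rintro rfl
              simp at h2
          rcases hb : ev i with _ | _
          · rw [hb] at u3
            exact u3.symm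
          · rw [hb] at u3
            exact u3
        · push Not at hcd
          have s : ∀ x, σ.symm (c, x) = (c, x) := by
            intro x
            rw [Equiv.symm_apply_eq]
            exact (R.other (c, x) hca hcb hcd).symm
          have q : ∀ x, lam (σ (e.symm (c, x))) ↔ χ (e.symm (c, x)) := by
            intro x
            apply key
            · intro h
              rw [Equiv.symm_apply_eq, P.third] at h
              exact hcb (congrArg Prod.fst h)
            · intro i hi h
              have h4 : e (d i, (e.symm (c, x)).2) = (c, x) := by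
                rw [← h]
                exact Equiv.apply_symm_apply _ _
              rcases P.image i hi _ with h5 | h5 | ⟨j, hj1, hj2, h5⟩ | ⟨j, hj1, h5⟩
              · rw [h4] at h5
                exact hca (congrArg Prod.fst h5)
              · rw [h4] at h5
                exact hcb (congrArg Prod.fst h5)
              · rw [h4] at h5
                exact hcd j hj2 (congrArg Prod.fst h5)
              · rw [h4] at h5
                exact hcd j (by omega) (congrArg Prod.fst h5)
          rw [s, s, q, q]
          have hc0 := hcd 0 (by omega)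
          simp only [hχ, hX, fL_symm_true, fR_symm_true, fL_symm_false, fR_symm_false, hg1,
            hf1 c hc0]
          exact or_comm
  · rw [key]
    · exact χa'
    · intro h
      rw [Equiv.symm_apply_eq, P.third] at h
      exact P.ab (congrArg Prod.fst h)
    · intro i hi h
      have h4 : e (d i, (e.symm (a, false)).2) = (a, false) := by
        rw [← h]
        exact Equiv.apply_symm_apply _ _
      rcases P.image i hi _ with h5 | h5 | ⟨j, hj1, hj2, h5⟩ | ⟨j, hj1, h5⟩
      · rw [h4] at h5
        simp at h5
      · rw [h4] at h5
        simp at h5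
      · rw [h4] at h5
        exact P.ne_a j hj2 (congrArg Prod.fst h5).symm
      · rw [h4] at h5
        exact P.ne_a j (by omega) (congrArg Prod.fst h5).symm

end Pool.Agent.Helper71.TG
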