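import Pool.Agent.Helper71.TG.Sym

/-!
# Walking around the faces

A traveller leaves the passage `z` forwards (`(z, true)`) or backwards (`(z, false)`) along an arc,
with the face on the left hand, and turns left at the next crossing.
-/

namespace Pool.Agent.Helper71.TG

open Equiv

variable {C : Type}

/-- The next passage in the given direction. -/
def pw (e : Perm (C × Bool)) (β : Bool) : Perm (C × Bool) := if β then e else e⁻¹

@[simp] theorem pw_true (e : Perm (C × Bool)) : pw e true = e := rfl
@[simp] theorem pw_false (e : Perm (C × Bool)) : pw e false = e⁻¹ := rfl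

theorem pw_not (e : Perm (C × Bool)) (β : Bool) : pw e (!β) = (pw e β)⁻¹ := by
  cases β <;> simp

@[simp] theorem pw_not_pw (e : Perm (C × Bool)) (β : Bool) (z : C × Bool) :
    pw e (!β) (pw e β z) = z := by
  rw [pw_not]; simp

@[simp] theorem pw_pw_not (e : Perm (C × Bool)) (β : Bool) (z : C × Bool) :
    pw e β (pw e (!β) z) = z := by
  rw [pw_not]; simp

/-- The passage at which the traveller arrives. -/
def arr (e : Perm (C × Bool)) (p : (C × Bool) × Bool) : C × Bool := pw e p.2 p.1

theorem ite_ite_not (x β : Bool) : (if x then (if x then β else !β) else !(if x then β else !β)) = β := by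
  cases x <;> simp

/-- One step of the traveller. -/
def step (e : Perm (C × Bool)) : Perm ((C × Bool) × Bool) where
  toFun p := (sw (arr e p), if (arr e p).2 then p.2 else !p.2)
  invFun q := ((pw e (if (sw q.1).2 then q.2 else !q.2)).symm (sw q.1),
    if (sw q.1).2 then q.2 else !q.2)
  left_inv p := by
    have h : sw (sw (arr e p)) = arr e p := sw_sw _
    simp only [h, ite_ite_not]
    simp [arr]
  right_inv q := by
    have h : arr e ((pw e (if (sw q.1).2 then q.2 else !q.2)).symm (sw q.1),
        if (sw q.1).2 then q.2 else !q.2) = sw q.1 := by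
      simp only [arr]
      exact Equiv.apply_symm_apply _ _
    simp only [h, ite_ite_not, sw_sw]

theorem step_def (e : Perm (C × Bool)) (p : (C × Bool) × Bool) :
    step e p = (sw (arr e p), if (arr e p).2 then p.2 else !p.2) := rfl

/-- The traveller passes a left or right corner. -/
def IsSide (e : Perm (C × Bool)) (p : (C × Bool) × Bool) : Prop := (arr e p).2 = true

theorem step_of_isSide {e : Perm (C × Bool)} {p : (C × Bool) × Bool} (h : IsSide e p) :
    step e p = (((arr e p).1, false), p.2) := by
  unfold IsSide at h
  rw [step_def, h]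
  simp [sw_apply, h]

theorem step_of_not_isSide {e : Perm (C × Bool)} {p : (C × Bool) × Bool} (h : ¬ IsSide e p) :
    step e p = (((arr e p).1, true), !p.2) := by
  unfold IsSide at h
  rw [Bool.not_eq_true] at h
  rw [step_def, h]
  simp [sw_apply, h]

theorem arr_of_isSide {e : Perm (C × Bool)} {p : (C × Bool) × Bool} (h : IsSide e p) :
    arr e p = ((arr e p).1, true) := Prod.ext rfl h

theorem arr_of_not_isSide {e : Perm (C × Bool)} {p : (C × Bool) × Bool} (h : ¬ IsSide e p) :
    arr e p = ((arr e p).1, false) := by
  unfold IsSide at h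
  rw [Bool.not_eq_true] at h
  exact Prod.ext rfl h

/-- The face on the left hand of the traveller. -/
def face (e : Perm (C × Bool)) (p : (C × Bool) × Bool) : Faces e :=
  if p.2 then fL e p.1 else fR e (e.symm p.1)

theorem face_step (e : Perm (C × Bool)) (p : (C × Bool) × Bool) :
    face e (step e p) = face e p := by
  by_cases h : IsSide e p
  · rw [step_of_isSide h]
    have h2 := arr_of_isSide h
    generalize (arr e p).1 = c at *
    rcases p with ⟨z, _ | _⟩
    · simp only [arr, pw_false] at h2
      simp only [face, Bool.false_eq_true, if_false, fR_symm_false]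
      have : e.symm z = (c, true) := h2
      rw [this, fR_true]
    · simp only [arr, pw_true] at h2
      simp only [face, if_true, fL_false]
      rw [← fL_symm_true, ← h2, Equiv.symm_apply_apply]
  · rw [step_of_not_isSide h]
    have h2 := arr_of_not_isSide h
    generalize (arr e p).1 = c at *
    rcases p with ⟨z, _ | _⟩
    · simp only [arr, pw_false] at h2
      simp only [face, Bool.false_eq_true, Bool.not_false, if_true, if_false, fL_true]
      have : e.symm z = (c, false) := h2
      rw [this, fR_false]
    · simp only [arr, pw_true] at h2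
      simp only [face, if_true, Bool.not_true, Bool.false_eq_true, if_false]
      rw [fR_symm_true, ← fL_symm_false, ← h2, Equiv.symm_apply_apply]

/-- The traveller with a given side of an arc on the left hand. -/
def dart (e : Perm (C × Bool)) (s : (C × Bool) × Bool) : (C × Bool) × Bool :=
  if s.2 then (s.1, true) else (e s.1, false)

theorem sameCycle_of_corner (e : Perm (C × Bool)) {s t : (C × Bool) × Bool} (h : Corner e s t) :
    (step e).SameCycle (dart e s) (dart e t) := by
  cases h with
  | front c =>
    refine (Equiv.Perm.SameCycle.symm ⟨1, ?_⟩)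
    rw [zpow_one]
    simp [step_def, dart, arr]
  | left c =>
    refine ⟨1, ?_⟩
    rw [zpow_one]
    simp [step_def, dart, arr]
  | back c =>
    refine (Equiv.Perm.SameCycle.symm ⟨1, ?_⟩)
    rw [zpow_one]
    simp [step_def, dart, arr]
  | right c =>
    refine (Equiv.Perm.SameCycle.symm ⟨1, ?_⟩)
    rw [zpow_one]
    simp [step_def, dart, arr]

theorem sameCycle_of_face {e : Perm (C × Bool)} {p q : (C × Bool) × Bool}
    (h : face e p = face e q) : (step e).SameCycle p q := by
  let F : Faces e → Quotient (Equiv.Perm.SameCycle.setoid (step e)) :=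
    Quot.lift (fun s => Quotient.mk _ (dart e s))
      (fun s t hst => Quotient.sound (sameCycle_of_corner e hst))
  have hF : ∀ p, F (face e p) = Quotient.mk _ p := by
    rintro ⟨z, _ | _⟩
    · change F (fR e (e.symm z)) = _
      change Quotient.mk _ (dart e (e.symm z, false)) = _
      simp [dart]
    · change F (fL e z) = _
      change Quotient.mk _ (dart e (z, true)) = _
      simp [dart]
  have h2 := congrArg F h
  rw [hF, hF] at h2
  exact Quotient.exact h2

theorem face_surj (e : Perm (C × Bool)) (φ : Faces e) : ∃ p, face e p = φ := by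
  obtain ⟨⟨x, b⟩, rfl⟩ := Quot.exists_rep φ
  rcases b with _ | _
  · refine ⟨(e x, false), ?_⟩
    simp [face, fR]
  · exact ⟨(x, true), rfl⟩

/-- The traveller going in the opposite direction on the other side of the same arc. -/
def opp (e : Perm (C × Bool)) (p : (C × Bool) × Bool) : (C × Bool) × Bool := (arr e p, !p.2)

/-- The two sides of every arc belong to different faces. -/
def Sep (e : Perm (C × Bool)) : Prop := ∀ p, face e p ≠ face e (opp e p)

theorem sep_of_sB [Finite C] [Nonempty C] {e : Perm (C × Bool)} (hk : IsKnot e) (hp : Planar e)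
    (h : sB e = 1) : Sep e := by
  obtain ⟨g, -, hg⟩ := exists_sep hk hp h
  rintro ⟨z, _ | _⟩ h2
  · apply hg (e.symm z)
    have : fR e (e.symm z) = fL e (e.symm z) := h2
    rw [this]
  · apply hg z
    have : fL e z = fR e (e.symm (e z)) := h2
    rw [Equiv.symm_apply_apply] at this
    rw [this]

/-- The arc is a side of an antiparallel bigon on the right hand of the traveller. -/
def Big (e : Perm (C × Bool)) (p : (C × Bool) × Bool) : Prop :=
  p.1.2 = true ∧ BigonAt e p.1.1 p.2

theorem bigonAt_iff (e : Perm (C × Bool)) (c : C) (β : Bool) :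
    BigonAt e c β ↔ ∃ c', pw e β (c, true) = (c', false) ∧ pw e β (c', true) = (c, false) := by
  cases β
  · simp only [BigonAt, pw_false, Bool.not_false, Equiv.Perm.inv_eq_iff_eq]
    constructor
    · rintro ⟨c', h1, h2⟩
      exact ⟨c', h2.symm, h1.symm⟩
    · rintro ⟨c', h1, h2⟩
      exact ⟨c', h2.symm, h1.symm⟩
  · simp [BigonAt]

theorem big_iff (e : Perm (C × Bool)) (p : (C × Bool) × Bool) :
    Big e p ↔ ¬ IsSide e p ∧ BigonAt e (arr e p).1 p.2 := by
  obtain ⟨⟨c, x⟩, β⟩ := p
  simp only [Big, IsSide, arr, bigonAt_iff]
  constructor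
  · rintro ⟨rfl, c', h1, h2⟩
    rw [h1]
    exact ⟨by simp, c, h2, h1⟩
  · rintro ⟨h1, c', h2, h3⟩
    rw [Bool.not_eq_true] at h1
    have h4 : pw e β (c, x) = ((pw e β (c, x)).1, false) := Prod.ext rfl h1
    have h5 := (pw e β).injective (h3.trans h4.symm)
    have h6 : c' = c := congrArg Prod.fst h5
    have h7 : true = x := congrArg Prod.snd h5
    subst h6 h7
    exact ⟨rfl, _, h4, h2⟩

theorem big_step_iff (e : Perm (C × Bool)) (p : (C × Bool) × Bool) :
    Big e (step e p) ↔ ¬ IsSide e p ∧ BigonAt e (arr e p).1 (!p.2) := by
  by_cases h : IsSide e p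
  · rw [step_of_isSide h]
    simp [Big, h]
  · rw [step_of_not_isSide h]
    simp [Big, h]

/-- The weight of a corner. -/
noncomputable def val (e : Perm (C × Bool)) (z : C × Bool) (β : Bool) : ℕ :=
  open Classical in
  if z.2 then (if BigonAt e z.1 (!β) then 3 else 2)
  else (if BigonAt e z.1 true ∧ BigonAt e z.1 false then 0 else 1)

theorem sum_val [Fintype C] (e : Perm (C × Bool)) :
    ∑ p : (C × Bool) × Bool, val e (arr e p) p.2 = 6 * Fintype.card C + twistEnds e := by
  classical
  have h1 : ∑ p : (C × Bool) × Bool, val e (arr e p) p.2 =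
      ∑ q : (C × Bool) × Bool, val e q.1 q.2 := by
    let φ : (C × Bool) × Bool ≃ (C × Bool) × Bool :=
      { toFun := fun p => (arr e p, p.2)
        invFun := fun q => ((pw e q.2).symm q.1, q.2)
        left_inv := fun p => by simp [arr]
        right_inv := fun q => by simp [arr] }
    exact Equiv.sum_comp φ (fun q => val e q.1 q.2)
  rw [h1, Fintype.sum_prod_type, Fintype.sum_prod_type]
  simp only [Fintype.sum_bool, val]
  have h2 : ∀ c : C, (((if BigonAt e c (!true) then 3 else 2) + if BigonAt e c (!false) then 3 else 2) +
      ((if BigonAt e c true ∧ BigonAt e c false then 0 else 1) +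
        if BigonAt e c true ∧ BigonAt e c false then 0 else 1) : ℕ) =
      6 + if Xor (BigonAt e c true) (BigonAt e c false) then 1 else 0 := by
    intro c
    simp only [Bool.not_true, Bool.not_false, Xor]
    by_cases ha : BigonAt e c true <;> by_cases hb : BigonAt e c false <;> simp [ha, hb]
  simp only [Bool.false_eq_true, if_false, if_true]
  rw [Finset.sum_congr rfl (fun c _ => h2 c), Finset.sum_add_distrib]
  congr 1
  · simp [mul_comm]
  · rw [Finset.sum_boole]
    unfold twistEnds
    rw [Nat.card_eq_fintype_card, Fintype.card_subtype]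
    simp

end Pool.Agent.Helper71.TG
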